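import Mathlib

set_option autoImplicit false

namespace Pool.Agent.MP_f1b527_co

open Finset

variable {X : Type*} [DecidableEq X] (r : X → X → Prop) [DecidableRel r]

/-- minimal elements of `S` -/
def mins (S : Finset X) : Finset X := S.filter (fun x => ∀ y ∈ S, ¬ r y x)

theorem mem_mins {S : Finset X} {x : X} : x ∈ mins r S ↔ x ∈ S ∧ ∀ y ∈ S, ¬ r y x := by
  simp [mins]

/-- listings of `S` compatible with `r`, by recursion -/
def LF : ℕ → Finset X → Finset (List X)
  | 0, _ => {[]}
  | k + 1, S => (mins r S).biUnion fun x => (LF k (S.erase x)).image (List.cons x)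

/-- number of linear extensions of `r` on `S` -/
def lin (S : Finset X) : ℕ := (LF r S.card S).card

theorem lin_empty : lin r (∅ : Finset X) = 1 := by
  simp [lin, LF]

theorem lin_rec {S : Finset X} (hS : S.Nonempty) :
    lin r S = ∑ x ∈ mins r S, lin r (S.erase x) := by
  obtain ⟨k, hk⟩ : ∃ k, S.card = k + 1 := ⟨S.card - 1, by
    have := hS.card_pos; omega⟩
  unfold lin
  rw [hk, LF, Finset.card_biUnion]
  · apply Finset.sum_congr rfl
    intro x hx
    have hxS : x ∈ S := (mem_mins r |>.mp hx).1
    rw [Finset.card_image_of_injective]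
    · rw [Finset.card_erase_of_mem hxS, hk, Nat.add_sub_cancel]
    · intro a b h
      simpa using h
  · intro a _ b _ hab
    rw [Function.onFun, Finset.disjoint_left]
    intro L h1 h2
    simp only [Finset.mem_image] at h1 h2
    obtain ⟨L1, _, rfl⟩ := h1
    obtain ⟨L2, _, h⟩ := h2
    simp at h
    exact hab h.1.symm

theorem mem_LF (hirr : ∀ x, ¬ r x x) {k : ℕ} {S : Finset X} (hk : S.card = k) {l : List X} :
    l ∈ LF r k S ↔ l.Nodup ∧ l.toFinset = S ∧ l.Pairwise (fun a b => ¬ r b a) := by
  induction k generalizing S l with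
  | zero =>
    rw [Finset.card_eq_zero] at hk
    subst hk
    simp only [LF, Finset.mem_singleton]
    constructor
    · rintro rfl
      simp
    · rintro ⟨_, h, _⟩
      simpa using h
  | succ k ih =>
    simp only [LF, Finset.mem_biUnion, Finset.mem_image]
    constructor
    · rintro ⟨x, hx, l', hl', rfl⟩
      rw [mem_mins] at hx
      have hc : (S.erase x).card = k := by rw [Finset.card_erase_of_mem hx.1, hk, Nat.add_sub_cancel]
      rw [ih hc] at hl'
      obtain ⟨h1, h2, h3⟩ := hl'
      have hxl : x ∉ l' := by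
        intro h
        have : x ∈ l'.toFinset := by simpa using h
        rw [h2] at this
        simp at this
      refine ⟨List.nodup_cons.mpr ⟨hxl, h1⟩, ?_, ?_⟩
      · rw [List.toFinset_cons, h2, Finset.insert_erase hx.1]
      · rw [List.pairwise_cons]
        refine ⟨?_, h3⟩
        intro b hb
        have : b ∈ l'.toFinset := by simpa using hb
        rw [h2] at this
        exact hx.2 b (Finset.mem_of_mem_erase this)
    · rintro ⟨h1, h2, h3⟩
      cases l with
      | nil =>
        simp at h2
        subst h2
        simp at hk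
      | cons x l' =>
        rw [List.nodup_cons] at h1
        rw [List.pairwise_cons] at h3
        have hxS : x ∈ S := by rw [← h2]; simp
        have hl' : l'.toFinset = S.erase x := by
          rw [← h2, List.toFinset_cons, Finset.erase_insert]
          simpa using h1.1
        refine ⟨x, ?_, l', ?_, rfl⟩
        · rw [mem_mins]
          refine ⟨hxS, ?_⟩
          intro y hy
          by_cases hyx : y = x
          · subst hyx; exact hirr y
          · apply h3.1
            have : y ∈ l'.toFinset := by rw [hl']; exact Finset.mem_erase.mpr ⟨hyx, hy⟩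
            simpa using this
        · have hc : (S.erase x).card = k := by
            rw [Finset.card_erase_of_mem hxS, hk, Nat.add_sub_cancel]
          rw [ih hc]
          exact ⟨h1.2, hl', h3.2⟩

/-- indicator of incomparability of distinct elements -/
def I (x y : X) : ℕ := if x ≠ y ∧ ¬ r x y ∧ ¬ r y x then 1 else 0

/-- indicator of `r x y` -/
def C (x y : X) : ℕ := if r x y then 1 else 0

/-- number of elements of `S` different from and incomparable to `x` -/
def q (S : Finset X) (x : X) : ℕ := ∑ y ∈ S, I r x y

/-- number of comparable pairs in `S` -/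
def cp (S : Finset X) : ℕ := ∑ x ∈ S, ∑ y ∈ S, C r x y

/-- number of ordered incomparable pairs in `S` -/
def M2 (S : Finset X) : ℕ := ∑ x ∈ S, ∑ y ∈ S, I r x y

theorem I_symm (x y : X) : I r x y = I r y x := by
  unfold I
  congr 1
  apply propext
  constructor
  · rintro ⟨h1, h2, h3⟩; exact ⟨h1.symm, h3, h2⟩
  · rintro ⟨h1, h2, h3⟩; exact ⟨h1.symm, h3, h2⟩

theorem I_self (x : X) : I r x x = 0 := by simp [I]

theorem IC (hirr : ∀ x, ¬ r x x) (hasym : ∀ x y, r x y → ¬ r y x) (x y : X) :
    I r x y + C r x y + C r y x + (if x = y then 1 else 0) = 1 := by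
  unfold I C
  by_cases h : x = y
  · subst h
    simp [hirr x]
  · by_cases h1 : r x y
    · have := hasym x y h1
      simp [h, h1, this]
    · by_cases h2 : r y x
      · simp [h, h1, h2]
      · simp [h, h1, h2]

theorem q_split {S : Finset X} (hirr : ∀ x, ¬ r x x) (hasym : ∀ x y, r x y → ¬ r y x) {x : X}
    (hx : x ∈ S) :
    q r S x + ∑ y ∈ S, C r x y + ∑ y ∈ S, C r y x + 1 = S.card := by
  have h : ∑ y ∈ S, (I r x y + C r x y + C r y x + (if x = y then 1 else 0)) = ∑ _y ∈ S, 1 :=
    Finset.sum_congr rfl (fun y _ => IC r hirr hasym x y)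
  rw [Finset.sum_add_distrib, Finset.sum_add_distrib, Finset.sum_add_distrib,
    Finset.sum_ite_eq] at h
  simp only [hx, if_true, Finset.sum_const, smul_eq_mul, mul_one] at h
  exact h

theorem M2_cp {S : Finset X} (hirr : ∀ x, ¬ r x x) (hasym : ∀ x y, r x y → ¬ r y x) :
    M2 r S + 2 * cp r S + S.card = S.card * S.card := by
  have h : ∑ x ∈ S, (q r S x + ∑ y ∈ S, C r x y + ∑ y ∈ S, C r y x + 1) = ∑ _x ∈ S, S.card :=
    Finset.sum_congr rfl (fun x hx => q_split r hirr hasym hx)
  rw [Finset.sum_add_distrib, Finset.sum_add_distrib, Finset.sum_add_distrib] at h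
  simp only [Finset.sum_const, smul_eq_mul, mul_one] at h
  have h2 : ∑ x ∈ S, ∑ y ∈ S, C r y x = cp r S := by
    rw [Finset.sum_comm]; rfl
  rw [h2] at h
  have h3 : ∑ x ∈ S, q r S x = M2 r S := rfl
  have h4 : ∑ x ∈ S, ∑ y ∈ S, C r x y = cp r S := rfl
  rw [h3, h4] at h
  omega

theorem cp_erase {S : Finset X} (hirr : ∀ x, ¬ r x x) {z : X} (hz : z ∈ S) :
    cp r S = cp r (S.erase z) + ∑ y ∈ S, C r z y + ∑ y ∈ S, C r y z := by
  have hzz : C r z z = 0 := by simp [C, hirr z]
  unfold cp
  rw [← Finset.add_sum_erase S _ hz]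
  have h1 : ∀ x ∈ S.erase z, ∑ y ∈ S, C r x y = C r x z + ∑ y ∈ S.erase z, C r x y := by
    intro x _
    rw [← Finset.add_sum_erase S _ hz]
  rw [Finset.sum_congr rfl h1, Finset.sum_add_distrib]
  have h2 : ∑ y ∈ S, C r y z = ∑ x ∈ S.erase z, C r x z := by
    rw [← Finset.add_sum_erase S _ hz, hzz, zero_add]
  rw [h2]
  ring

theorem q_erase {S : Finset X} {x z : X} (hz : z ∈ S) :
    q r S x = I r x z + q r (S.erase z) x := by
  unfold q
  rw [← Finset.add_sum_erase S _ hz]

theorem lin_le_mul {S : Finset X} {z : X} (hz : z ∈ S) :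
    lin r S ≤ (q r S z + 1) * lin r (S.erase z) := by
  induction hn : S.card generalizing S with
  | zero =>
    rw [Finset.card_eq_zero] at hn
    subst hn
    simp at hz
  | succ n ih =>
    have hne : S.Nonempty := ⟨z, hz⟩
    have hsub : (mins r S).erase z ⊆ mins r (S.erase z) := by
      intro x hx
      rw [Finset.mem_erase, mem_mins] at hx
      rw [mem_mins, Finset.mem_erase]
      exact ⟨⟨hx.1, hx.2.1⟩, fun y hy => hx.2.2 y (Finset.mem_of_mem_erase hy)⟩
    have hsum : ∑ x ∈ (mins r S).erase z, lin r ((S.erase z).erase x) ≤ lin r (S.erase z) := by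
      by_cases hE : (S.erase z).Nonempty
      · rw [lin_rec r hE]
        exact Finset.sum_le_sum_of_subset hsub
      · rw [Finset.not_nonempty_iff_eq_empty] at hE
        rw [hE] at hsub
        have : (mins r S).erase z = ∅ := by
          rw [← Finset.subset_empty]
          refine hsub.trans ?_
          intro x hx
          rw [mem_mins] at hx
          exact hx.1
        rw [this]
        simp
    rw [lin_rec r hne]
    by_cases hzm : z ∈ mins r S
    · rw [← Finset.add_sum_erase _ _ hzm]
      have hle : ∀ x ∈ (mins r S).erase z, lin r (S.erase x) ≤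
          q r S z * lin r ((S.erase z).erase x) := by
        intro x hx
        rw [Finset.mem_erase, mem_mins] at hx
        have hzx : z ∈ S.erase x := Finset.mem_erase.mpr ⟨hx.1.symm, hz⟩
        have h1 := ih hzx (by rw [Finset.card_erase_of_mem hx.2.1, hn, Nat.add_sub_cancel])
        have h2 : q r S z = 1 + q r (S.erase x) z := by
          rw [q_erase r hx.2.1]
          congr 1
          unfold I
          rw [if_pos]
          exact ⟨hx.1.symm, hx.2.2 z hz, (mem_mins r |>.mp hzm).2 x hx.2.1⟩
        rw [h2, Finset.erase_right_comm, add_comm 1]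
        exact h1
      calc lin r (S.erase z) + ∑ x ∈ (mins r S).erase z, lin r (S.erase x)
          ≤ lin r (S.erase z) + ∑ x ∈ (mins r S).erase z, q r S z * lin r ((S.erase z).erase x) :=
            Nat.add_le_add_left (Finset.sum_le_sum hle) _
        _ = lin r (S.erase z) + q r S z * ∑ x ∈ (mins r S).erase z, lin r ((S.erase z).erase x) := by
            rw [Finset.mul_sum]
        _ ≤ lin r (S.erase z) + q r S z * lin r (S.erase z) :=
            Nat.add_le_add_left (Nat.mul_le_mul_left _ hsum) _
        _ = (q r S z + 1) * lin r (S.erase z) := by ring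
    · have hle : ∀ x ∈ mins r S, lin r (S.erase x) ≤
          (q r S z + 1) * lin r ((S.erase z).erase x) := by
        intro x hx
        have hxz : x ≠ z := by rintro rfl; exact hzm hx
        rw [mem_mins] at hx
        have hzx : z ∈ S.erase x := Finset.mem_erase.mpr ⟨hxz.symm, hz⟩
        have h1 := ih hzx (by rw [Finset.card_erase_of_mem hx.1, hn, Nat.add_sub_cancel])
        have h2 : q r (S.erase x) z ≤ q r S z := by
          rw [q_erase r hx.1]; omega
        rw [Finset.erase_right_comm]
        exact h1.trans (Nat.mul_le_mul_right _ (by omega))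
      have he : (mins r S).erase z = mins r S := Finset.erase_eq_of_notMem hzm
      rw [he] at hsum
      calc ∑ x ∈ mins r S, lin r (S.erase x)
          ≤ ∑ x ∈ mins r S, (q r S z + 1) * lin r ((S.erase z).erase x) := Finset.sum_le_sum hle
        _ = (q r S z + 1) * ∑ x ∈ mins r S, lin r ((S.erase z).erase x) := by rw [Finset.mul_sum]
        _ ≤ (q r S z + 1) * lin r (S.erase z) := Nat.mul_le_mul_left _ hsum

end Pool.Agent.MP_f1b527_co
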