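import Mathlib
import Pool.Agent.MP_f1b527_co.Lin

set_option autoImplicit false

namespace Pool.Agent.MP_f1b527_co

open Finset

variable {X : Type*} [DecidableEq X] (r : X → X → Prop) [DecidableRel r]

/-- trace preorder -/
def tle (x y : X) : Prop := (∀ z, r z x → r z y) ∧ (∀ z, r y z → r x z)

omit [DecidableEq X] [DecidableRel r] in
theorem tle_refl (x : X) : tle r x x := ⟨fun _ h => h, fun _ h => h⟩

omit [DecidableEq X] [DecidableRel r] in
theorem tle_trans {x y z : X} (h1 : tle r x y) (h2 : tle r y z) : tle r x z :=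
  ⟨fun w h => h2.1 w (h1.1 w h), fun w h => h1.2 w (h2.2 w h)⟩

omit [DecidableEq X] [DecidableRel r] in
theorem exists_tle_min (ht : ∀ x y, tle r x y ∨ tle r y x) (T : Finset X) (hT : T.Nonempty) :
    ∃ z ∈ T, ∀ w ∈ T, tle r z w := by
  classical
  induction T using Finset.induction_on with
  | empty => simp at hT
  | insert a T ha ih =>
    by_cases hT' : T.Nonempty
    · obtain ⟨z, hz, hw⟩ := ih hT'
      rcases ht z a with h | h
      · refine ⟨z, Finset.mem_insert_of_mem hz, ?_⟩
        intro w hw'
        rcases Finset.mem_insert.mp hw' with rfl | hw'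
        · exact h
        · exact hw w hw'
      · refine ⟨a, Finset.mem_insert_self _ _, ?_⟩
        intro w hw'
        rcases Finset.mem_insert.mp hw' with rfl | hw'
        · exact tle_refl r _
        · exact tle_trans r h (hw w hw')
    · rw [Finset.not_nonempty_iff_eq_empty] at hT'
      subst hT'
      refine ⟨a, by simp, ?_⟩
      intro w hw
      simp at hw
      subst hw
      exact tle_refl r _

theorem exists_initial (ht : ∀ x y, tle r x y ∨ tle r y x) (S : Finset X) (R : ℕ)
    (hR : R ≤ S.card) :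
    ∃ A ⊆ S, A.card = R ∧ ∀ a ∈ A, ∀ z ∈ S \ A, tle r a z := by
  induction R with
  | zero => exact ⟨∅, by simp, by simp, by simp⟩
  | succ R ih =>
    obtain ⟨A, hA, hc, hle⟩ := ih (by omega)
    have hne : (S \ A).Nonempty := by
      rw [← Finset.card_pos, Finset.card_sdiff_of_subset hA]
      omega
    obtain ⟨z, hz, hzmin⟩ := exists_tle_min r ht _ hne
    have hz' := Finset.mem_sdiff.mp hz
    refine ⟨insert z A, Finset.insert_subset hz'.1 hA, ?_, ?_⟩
    · rw [Finset.card_insert_of_notMem hz'.2, hc]
    · intro a ha w hw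
      rw [Finset.mem_sdiff, Finset.mem_insert, not_or] at hw
      have hw' : w ∈ S \ A := Finset.mem_sdiff.mpr ⟨hw.1, hw.2.2⟩
      rcases Finset.mem_insert.mp ha with rfl | ha
      · exact hzmin w hw'
      · exact hle a ha w hw'

theorem M2_union {A B : Finset X} (h : Disjoint A B) :
    M2 r (A ∪ B) = M2 r A + M2 r B + 2 * ∑ a ∈ A, ∑ b ∈ B, I r a b := by
  unfold M2
  rw [Finset.sum_union h]
  have h1 : ∀ x, ∑ y ∈ A ∪ B, I r x y = ∑ y ∈ A, I r x y + ∑ y ∈ B, I r x y :=
    fun x => Finset.sum_union h
  simp_rw [h1]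
  rw [Finset.sum_add_distrib, Finset.sum_add_distrib]
  have h2 : ∑ x ∈ B, ∑ y ∈ A, I r x y = ∑ a ∈ A, ∑ b ∈ B, I r a b := by
    rw [Finset.sum_comm]
    apply Finset.sum_congr rfl
    intro a _
    apply Finset.sum_congr rfl
    intro b _
    exact I_symm r b a
  rw [h2]
  ring

theorem cross_le (hirr : ∀ x, ¬ r x x) (hasym : ∀ x y, r x y → ¬ r y x)
    {S A : Finset X} (hA : A ⊆ S) (hle : ∀ a ∈ A, ∀ z ∈ S \ A, tle r a z)
    (hq : ∀ x ∈ S, q r S x + 1 ≤ A.card) :
    ∑ a ∈ A, ∑ b ∈ S \ A, I r a b ≤ cp r A := by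
  have h1 : ∀ a ∈ A, ∑ b ∈ S \ A, I r a b ≤ ∑ y ∈ A, C r y a := by
    intro a ha
    by_cases h0 : ∑ b ∈ S \ A, I r a b = 0
    · rw [h0]; exact Nat.zero_le _
    · obtain ⟨z, hz, hI⟩ := Finset.exists_ne_zero_of_sum_ne_zero h0
      have hIz : a ≠ z ∧ ¬ r a z ∧ ¬ r z a := by
        by_contra hcon
        apply hI
        unfold I
        rw [if_neg hcon]
      have hu : ∑ y ∈ A, C r a y = 0 := by
        apply Finset.sum_eq_zero
        intro y hy
        unfold C
        rw [if_neg]
        intro hay
        exact hIz.2.1 ((hle y hy z hz).1 a hay)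
      have hs := q_split r hirr hasym ha
      rw [hu] at hs
      have hqa := hq a (hA ha)
      have hqs : q r S a = q r A a + ∑ b ∈ S \ A, I r a b := by
        unfold q
        rw [add_comm, Finset.sum_sdiff hA]
      omega
  calc ∑ a ∈ A, ∑ b ∈ S \ A, I r a b ≤ ∑ a ∈ A, ∑ y ∈ A, C r y a := Finset.sum_le_sum h1
    _ = cp r A := by rw [Finset.sum_comm]; rfl

/-- extremal number of incomparable pairs when every class has size at most `R` -/
def G (n R : ℕ) : ℕ := ∑ i ∈ range n, i % R

theorem two_G_of_le {n R : ℕ} (h : n ≤ R) : 2 * G n R + n = n * n := by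
  have : G n R = ∑ i ∈ range n, i := by
    unfold G
    apply Finset.sum_congr rfl
    intro i hi
    rw [Finset.mem_range] at hi
    exact Nat.mod_eq_of_lt (by omega)
  rw [this]
  have h2 := Finset.sum_range_id_mul_two n
  cases n with
  | zero => simp
  | succ n =>
    rw [Nat.add_sub_cancel] at h2
    nlinarith

theorem G_add (n R : ℕ) : G (R + n) R = G R R + G n R := by
  unfold G
  rw [Finset.sum_range_add]
  congr 1
  apply Finset.sum_congr rfl
  intro i _
  rw [Nat.add_mod_left]

theorem M2_le (hirr : ∀ x, ¬ r x x) (hasym : ∀ x y, r x y → ¬ r y x)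
    (ht : ∀ x y, tle r x y ∨ tle r y x) {R : ℕ} (hR : 1 ≤ R) (S : Finset X)
    (hq : ∀ x ∈ S, q r S x + 1 ≤ R) : M2 r S ≤ 2 * G S.card R := by
  induction hn : S.card using Nat.strong_induction_on generalizing S with
  | _ n ih =>
    subst hn
    by_cases hle : S.card ≤ R
    · have h1 := two_G_of_le hle
      have h2 := M2_cp r (S := S) hirr hasym
      omega
    · push Not at hle
      obtain ⟨A, hA, hAc, hAle⟩ := exists_initial r ht S R hle.le
      have hcross := cross_le r hirr hasym hA hAle (by rw [hAc]; exact hq)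
      have hcard : (S \ A).card = S.card - R := by rw [Finset.card_sdiff_of_subset hA, hAc]
      have hdis : Disjoint A (S \ A) := Finset.disjoint_sdiff
      have hU := M2_union r hdis
      rw [Finset.union_sdiff_of_subset hA] at hU
      have hIH := ih (S \ A).card (by omega) (S \ A) (by
        intro x hx
        have hx' := Finset.mem_sdiff.mp hx
        refine le_trans ?_ (hq x hx'.1)
        unfold q
        exact Nat.add_le_add_right (Finset.sum_le_sum_of_subset Finset.sdiff_subset) 1) rfl
      have hA2 := M2_cp r (S := A) hirr hasym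
      rw [hAc] at hA2
      have hGR := two_G_of_le (le_refl R)
      have hG : G S.card R = G R R + G (S.card - R) R := by
        rw [← G_add]
        congr 1
        omega
      rw [hcard] at hIH
      rw [hG]
      omega

end Pool.Agent.MP_f1b527_co
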