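import Mathlib
import Pool.Agent.MP_f1b527_co.Semi

set_option autoImplicit false

namespace Pool.Agent.MP_f1b527_co

open Finset

/-- incomparable pairs of the weak order with one level of size `c` and `b` balanced levels -/
def mm (b c n : ℕ) : ℕ := c.choose 2 + ∑ i ∈ range (n - c), i / b

/-- linear extensions of the weak order with one level of size `c` and `b` balanced levels -/
def EE (b c n : ℕ) : ℕ := c.factorial * ∏ i ∈ range (n - c), (i / b + 1)

theorem div_aux {b q j : ℕ} (hj : j < b) : (b * q + j) / b = q := by
  have hb : 0 < b := by omega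
  rw [Nat.mul_add_div hb, Nat.div_eq_of_lt hj, add_zero]

theorem sum_div {b : ℕ} (q ρ : ℕ) (hρ : ρ ≤ b) :
    ∑ i ∈ range (b * q + ρ), i / b = b * q.choose 2 + ρ * q := by
  have h0 : ∀ q ρ, ρ ≤ b → ∑ i ∈ range (b * q + ρ), i / b = ∑ i ∈ range (b * q), i / b + ρ * q := by
    intro q ρ hρ
    rw [Finset.sum_range_add]
    congr 1
    rw [Finset.sum_congr rfl (g := fun _ => q)]
    · simp
    · intro j hj
      rw [Finset.mem_range] at hj
      exact div_aux (by omega)
  rw [h0 q ρ hρ]
  congr 1
  induction q with
  | zero => simp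
  | succ q ih =>
    rw [Nat.mul_succ, h0 q b le_rfl, ih, Nat.choose_succ_succ' q 1, Nat.choose_one_right]
    ring

theorem prod_div {b : ℕ} (q ρ : ℕ) (hρ : ρ ≤ b) :
    ∏ i ∈ range (b * q + ρ), (i / b + 1) = q.factorial ^ b * (q + 1) ^ ρ := by
  have h0 : ∀ q ρ, ρ ≤ b → ∏ i ∈ range (b * q + ρ), (i / b + 1)
      = (∏ i ∈ range (b * q), (i / b + 1)) * (q + 1) ^ ρ := by
    intro q ρ hρ
    rw [Finset.prod_range_add]
    congr 1
    rw [Finset.prod_congr rfl (g := fun _ => q + 1)]
    · simp
    · intro j hj
      rw [Finset.mem_range] at hj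
      rw [div_aux (by omega)]
  rw [h0 q ρ hρ]
  congr 1
  induction q with
  | zero => simp
  | succ q ih =>
    rw [Nat.mul_succ, h0 q b le_rfl, ih, Nat.factorial_succ, mul_pow]
    ring

theorem vertex_eq {b c n : ℕ} (hb : 1 ≤ b) (h1 : (b + 1) * c ≤ n) (h2 : n < (b + 1) * (c + 1)) :
    mm b c n = mm (b + 1) 0 n ∧ EE b c n = EE (b + 1) 0 n := by
  obtain ⟨ρ, rfl⟩ := Nat.exists_eq_add_of_le h1
  have hρ : ρ ≤ b := by
    have : (b + 1) * (c + 1) = (b + 1) * c + (b + 1) := by ring
    omega
  have e1 : (b + 1) * c + ρ - c = b * c + ρ := by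
    have : (b + 1) * c = b * c + c := by ring
    omega
  unfold mm EE
  rw [e1, Nat.sub_zero, sum_div c ρ hρ, sum_div c ρ (by omega : ρ ≤ b + 1), prod_div c ρ hρ,
    prod_div c ρ (by omega : ρ ≤ b + 1)]
  constructor
  · simp
    ring
  · simp
    ring

theorem mm_succ_c {b c n : ℕ} (h : c + 1 ≤ n) :
    mm b (c + 1) n + (n - (c + 1)) / b = mm b c n + c := by
  unfold mm
  obtain ⟨k, rfl⟩ := Nat.exists_eq_add_of_le h
  have e1 : c + 1 + k - (c + 1) = k := by omega
  have e2 : c + 1 + k - c = k + 1 := by omega
  rw [e1, e2, Finset.sum_range_succ, Nat.choose_succ_succ' c 1, Nat.choose_one_right]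
  ring

theorem EE_succ_c {b c n : ℕ} (h : c + 1 ≤ n) :
    EE b (c + 1) n * ((n - (c + 1)) / b + 1) = (c + 1) * EE b c n := by
  unfold EE
  obtain ⟨k, rfl⟩ := Nat.exists_eq_add_of_le h
  have e1 : c + 1 + k - (c + 1) = k := by omega
  have e2 : c + 1 + k - c = k + 1 := by omega
  rw [e1, e2, Finset.prod_range_succ, Nat.factorial_succ]
  ring

theorem mm_succ_n {b c n : ℕ} (h : c ≤ n) : mm b c (n + 1) = mm b c n + (n - c) / b := by
  unfold mm
  obtain ⟨k, rfl⟩ := Nat.exists_eq_add_of_le h
  have e1 : c + k - c = k := by omega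
  have e2 : c + k + 1 - c = k + 1 := by omega
  rw [e1, e2, Finset.sum_range_succ]
  ring

theorem EE_succ_n {b c n : ℕ} (h : c ≤ n) : EE b c (n + 1) = EE b c n * ((n - c) / b + 1) := by
  unfold EE
  obtain ⟨k, rfl⟩ := Nat.exists_eq_add_of_le h
  have e1 : c + k - c = k := by omega
  have e2 : c + k + 1 - c = k + 1 := by omega
  rw [e1, e2, Finset.prod_range_succ]
  ring

theorem G_mul_add (b R t : ℕ) : G (R * b + t) R = b * G R R + G t R := by
  induction b with
  | zero => simp
  | succ b ih =>
    have : R * (b + 1) + t = R + (R * b + t) := by ring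
    rw [this, G_add, ih]
    ring

theorem G_le_mm {b c n : ℕ} (hb : 1 ≤ b) (h : c + 1 ≤ n) (hR : c + 1 ≤ (n - (c + 1)) / b) :
    G n ((n - (c + 1)) / b) ≤ mm b (c + 1) n := by
  obtain ⟨M, rfl⟩ := Nat.exists_eq_add_of_le h
  have e1 : c + 1 + M - (c + 1) = M := by omega
  rw [e1] at hR ⊢
  set R := M / b with hRdef
  have hM : M = b * R + M % b := (Nat.div_add_mod M b).symm
  have hj : M % b < b := Nat.mod_lt _ (by omega)
  set j := M % b
  have hs := sum_div R j hj.le
  unfold mm
  rw [e1]
  have hn : c + 1 + M = R * b + ((c + 1) + j) := by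
    rw [hM]; ring
  have hsum : ∑ i ∈ range M, i / b = b * R.choose 2 + j * R := by
    rw [hM]
    exact hs
  rw [hn, G_mul_add, hsum]
  have hG1 : G R R = R.choose 2 := by
    have h1 := two_G_of_le (le_refl R)
    have h2 := Nat.choose_two_right R
    have h3 : R * (R - 1) = 2 * G R R := by
      rw [Nat.mul_sub_one]
      omega
    rw [h2, h3]
    omega
  have hG2 : G (c + 1 + j) R ≤ (c + 1).choose 2 + j * R := by
    unfold G
    rw [Finset.sum_range_add]
    have h1 : ∑ i ∈ range (c + 1), i % R ≤ ∑ i ∈ range (c + 1), i :=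
      Finset.sum_le_sum (fun i _ => Nat.mod_le _ _)
    have h2 : ∑ i ∈ range (c + 1), i = (c + 1).choose 2 := by
      rw [Finset.sum_range_id, Nat.choose_two_right]
    have h3 : ∑ i ∈ range j, (c + 1 + i) % R ≤ ∑ _i ∈ range j, R :=
      Finset.sum_le_sum (fun i _ => (Nat.mod_lt _ (by omega)).le)
    rw [Finset.sum_const, Finset.card_range, smul_eq_mul] at h3
    omega
  rw [hG1]
  omega

variable {X : Type*} [DecidableEq X] (r : X → X → Prop) [DecidableRel r]

theorem lin_le_one {S : Finset X} (h : ∀ x ∈ S, q r S x = 0) : lin r S ≤ 1 := by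
  induction hn : S.card generalizing S with
  | zero =>
    rw [Finset.card_eq_zero] at hn
    subst hn
    rw [lin_empty]
  | succ n ih =>
    obtain ⟨z, hz⟩ : S.Nonempty := by
      rw [← Finset.card_pos]; omega
    have h1 := lin_le_mul r hz
    rw [h z hz, zero_add, one_mul] at h1
    refine h1.trans (ih ?_ (by rw [Finset.card_erase_of_mem hz, hn, Nat.add_sub_cancel]))
    intro x hx
    have h2 := q_erase r (x := x) hz
    rw [h x (Finset.mem_of_mem_erase hx)] at h2
    omega

theorem lin_bound (hirr : ∀ x, ¬ r x x) (hasym : ∀ x y, r x y → ¬ r y x)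
    (ht : ∀ x y, tle r x y ∨ tle r y x) (n : ℕ) : ∀ S : Finset X, S.card = n →
    ∀ δ b c : ℕ, 1 ≤ b → (b + 1) * (c + 1) ≤ n + 1 →
    cp r S + mm b c n = n.choose 2 + δ → lin r S * (δ + c + 1) ≤ (c + 1) * EE b c n := by
  induction n with
  | zero =>
    intro S _ δ b c hb h _
    exfalso
    have : 2 * 1 ≤ (b + 1) * (c + 1) := Nat.mul_le_mul (by omega) (by omega)
    omega
  | succ n ihn =>
    intro S hS δ
    have hcard := M2_cp r (S := S) hirr hasym
    rw [hS] at hcard
    have hch : (n + 1).choose 2 = n.choose 2 + n := by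
      rw [Nat.choose_succ_succ' n 1, Nat.choose_one_right]; ring
    have h2ch : 2 * (n + 1).choose 2 + (n + 1) = (n + 1) * (n + 1) := by
      have := Nat.choose_two_right (n + 1)
      rw [Nat.add_sub_cancel] at this
      have h3 : 2 ∣ (n + 1) * n := by
        have := (Nat.even_mul_succ_self n).two_dvd
        rwa [mul_comm]
      have h4 := Nat.div_mul_cancel h3
      rw [← this] at h4
      nlinarith
    induction δ using Nat.strong_induction_on with
    | _ δ ihδ =>
      -- the case of a proper vertex
      have hvalid : ∀ b c : ℕ, 1 ≤ b → (b + 1) * (c + 1) ≤ n + 1 →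
          cp r S + mm b c (n + 1) = (n + 1).choose 2 + δ →
          lin r S * (δ + c + 1) ≤ (c + 1) * EE b c (n + 1) := by
        intro b c hb hbc hcp
        have hexp : (b + 1) * (c + 1) = b * (c + 1) + (c + 1) := by ring
        have hbc1 : b * (c + 1) ≤ n - c := by omega
        have hcn : c + 1 ≤ n + 1 := by
          have := Nat.zero_le (b * (c + 1)); omega
        have hR : c + 1 ≤ (n - c) / b := by
          rw [Nat.le_div_iff_mul_le (by omega)]
          rw [mul_comm]; exact hbc1
        set R := (n - c) / b with hRdef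
        have hnc : n + 1 - (c + 1) = n - c := by omega
        have hmc := mm_succ_c (b := b) hcn
        rw [hnc, ← hRdef] at hmc
        have hEc := EE_succ_c (b := b) hcn
        rw [hnc, ← hRdef] at hEc
        by_cases hA : R ≤ δ + c
        · obtain ⟨δ', hδ'⟩ : ∃ δ', δ + c = R + δ' := Nat.exists_eq_add_of_le hA
          have hlt : δ' < δ := by omega
          have hcp' : cp r S + mm b (c + 1) (n + 1) = (n + 1).choose 2 + δ' := by omega
          by_cases hA1 : (b + 1) * (c + 2) ≤ n + 1
          · have h1 := ihδ δ' hlt b (c + 1) hb (by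
              have : (b + 1) * (c + 1 + 1) = (b + 1) * (c + 2) := by ring
              omega) hcp'
            have h2 : (c + 2) * (δ + c + 1) ≤ (R + 1) * (δ' + (c + 1) + 1) := by
              have e1 : δ + c + 1 = R + 1 + δ' := by omega
              rw [e1]
              obtain ⟨t, ht'⟩ : ∃ t, R = c + 1 + t := Nat.exists_eq_add_of_le hR
              rw [ht']
              nlinarith [Nat.zero_le (t * δ')]
            have h3 : (c + 2) * (lin r S * (δ + c + 1)) ≤ (c + 2) * ((c + 1) * EE b c (n + 1)) := by
              calc (c + 2) * (lin r S * (δ + c + 1)) = lin r S * ((c + 2) * (δ + c + 1)) := by ring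
                _ ≤ lin r S * ((R + 1) * (δ' + (c + 1) + 1)) := Nat.mul_le_mul_left _ h2
                _ = (R + 1) * (lin r S * (δ' + (c + 1) + 1)) := by ring
                _ ≤ (R + 1) * ((c + 1 + 1) * EE b (c + 1) (n + 1)) := Nat.mul_le_mul_left _ h1
                _ = (c + 2) * (EE b (c + 1) (n + 1) * (R + 1)) := by ring
                _ = (c + 2) * ((c + 1) * EE b c (n + 1)) := by rw [hEc]
            exact Nat.le_of_mul_le_mul_left h3 (by omega)
          · push Not at hA1
            have hv := vertex_eq hb hbc (by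
              have : (b + 1) * (c + 1 + 1) = (b + 1) * (c + 2) := by ring
              omega)
            have hbn : b ≤ n := by
              have : b * 1 ≤ b * (c + 1) := Nat.mul_le_mul_left _ (by omega)
              omega
            rw [hv.1] at hcp'
            have h1 := ihδ δ' hlt (b + 1) 0 (by omega) (by omega) hcp'
            have h2 : δ + c + 1 ≤ (R + 1) * (δ' + 0 + 1) := by
              have e1 : δ + c + 1 = R + 1 + δ' := by omega
              rw [e1]
              nlinarith [Nat.zero_le (R * δ')]
            calc lin r S * (δ + c + 1) ≤ lin r S * ((R + 1) * (δ' + 0 + 1)) :=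
                  Nat.mul_le_mul_left _ h2
              _ = (R + 1) * (lin r S * (δ' + 0 + 1)) := by ring
              _ ≤ (R + 1) * ((0 + 1) * EE (b + 1) 0 (n + 1)) := Nat.mul_le_mul_left _ h1
              _ = EE b (c + 1) (n + 1) * (R + 1) := by rw [hv.2]; ring
              _ = (c + 1) * EE b c (n + 1) := hEc
        · push Not at hA
          have hR1 : 1 ≤ R := by omega
          obtain ⟨z, hz, hzq⟩ : ∃ z ∈ S, R ≤ q r S z := by
            by_contra hcon
            push Not at hcon
            have h1 := M2_le r hirr hasym ht hR1 S (fun x hx => hcon x hx)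
            have h2 := G_le_mm hb hcn (by rw [hnc]; exact hR)
            rw [hnc, ← hRdef] at h2
            rw [hS] at h1
            omega
          have hsp := q_split r hirr hasym hz
          rw [hS] at hsp
          have hcpe := cp_erase r hirr hz
          have hmn := mm_succ_n (b := b) (show c ≤ n by omega)
          have hEn := EE_succ_n (b := b) (show c ≤ n by omega)
          rw [← hRdef] at hmn hEn
          obtain ⟨t, ht'⟩ : ∃ t, q r S z = R + t := Nat.exists_eq_add_of_le hzq
          have hih := ihn (S.erase z) (by rw [Finset.card_erase_of_mem hz, hS, Nat.add_sub_cancel])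
            (δ + t) b c hb hbc (by omega)
          have h1 := lin_le_mul r hz
          rw [ht'] at h1
          have h2 : (R + t + 1) * (δ + c + 1) ≤ (R + 1) * (δ + t + c + 1) := by
            obtain ⟨w, hw⟩ : ∃ w, R = δ + c + 1 + w := Nat.exists_eq_add_of_le hA
            rw [hw]
            nlinarith [Nat.zero_le (t * w), Nat.zero_le t]
          calc lin r S * (δ + c + 1) ≤ (R + t + 1) * lin r (S.erase z) * (δ + c + 1) :=
                Nat.mul_le_mul_right _ h1
            _ = lin r (S.erase z) * ((R + t + 1) * (δ + c + 1)) := by ring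
            _ ≤ lin r (S.erase z) * ((R + 1) * (δ + t + c + 1)) := Nat.mul_le_mul_left _ h2
            _ = (R + 1) * (lin r (S.erase z) * (δ + t + c + 1)) := by ring
            _ ≤ (R + 1) * ((c + 1) * EE b c n) := Nat.mul_le_mul_left _ hih
            _ = (c + 1) * (EE b c n * (R + 1)) := by ring
            _ = (c + 1) * EE b c (n + 1) := by rw [hEn]
      intro b c hb hbc hcp
      by_cases hbc' : (b + 1) * (c + 1) ≤ n + 1
      · exact hvalid b c hb hbc' hcp
      · push Not at hbc'
        have hexp : (b + 1) * (c + 1) = (b + 1) * c + (b + 1) := by ring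
        have hv := vertex_eq hb (n := n + 1) (c := c) (by omega) (by omega)
        by_cases hb2 : b + 2 ≤ n + 1
        · have h1 := hvalid (b + 1) 0 (by omega) (by omega) (by rw [← hv.1]; exact hcp)
          rw [hv.2]
          calc lin r S * (δ + c + 1) ≤ lin r S * ((c + 1) * (δ + 0 + 1)) :=
                Nat.mul_le_mul_left _ (by nlinarith [Nat.zero_le (c * δ)])
            _ = (c + 1) * (lin r S * (δ + 0 + 1)) := by ring
            _ ≤ (c + 1) * ((0 + 1) * EE (b + 1) 0 (n + 1)) := Nat.mul_le_mul_left _ h1
            _ = (c + 1) * EE (b + 1) 0 (n + 1) := by ring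
        · push Not at hb2
          have hc0 : c = 0 := by
            by_contra hc
            have : (b + 1) * 1 ≤ (b + 1) * c := Nat.mul_le_mul_left _ (by omega)
            omega
          subst hc0
          have hbn : b = n + 1 := by omega
          subst hbn
          have hm0 : mm (n + 1) 0 (n + 1) = 0 := by
            unfold mm
            rw [Nat.sub_zero]
            have := sum_div (b := n + 1) 0 (n + 1) le_rfl
            rw [Nat.mul_zero, zero_add] at this
            rw [this]
            simp
          have hE1 : EE (n + 1) 0 (n + 1) = 1 := by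
            unfold EE
            rw [Nat.sub_zero]
            have := prod_div (b := n + 1) 0 (n + 1) le_rfl
            rw [Nat.mul_zero, zero_add] at this
            rw [this]
            simp
          rw [hm0] at hcp
          have hδ0 : δ = 0 := by omega
          have hM20 : M2 r S = 0 := by omega
          subst hδ0
          rw [hE1]
          have : lin r S ≤ 1 := by
            apply lin_le_one
            intro x hx
            unfold M2 at hM20
            rw [Finset.sum_eq_zero_iff] at hM20
            exact hM20 x hx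
          omega

end Pool.Agent.MP_f1b527_co
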