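import Mathlib
import Pool.Agent.MP_f1b527_co.Semi

set_option autoImplicit false

namespace Pool.Agent.MP_f1b527_co

open Finset
open scoped Classical

variable {n : ℕ}

/-- order-preserving bijections onto `{0, …, n-1}` -/
def extSet (r : Fin n → Fin n → Prop) : Set (Equiv.Perm (Fin n)) :=
  {σ | ∀ a b, r a b → σ a < σ b}

/-- compression -/
def cmpr (r : Fin n → Fin n → Prop) (x y a b : Fin n) : Prop :=
  if a = x then (r x b ∨ r y b) else if a = y then (r x b ∧ r y b)
  else if b = x then (r a x ∧ r a y) else if b = y then (r a x ∨ r a y) else r a b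

theorem cmpr_irr {r : Fin n → Fin n → Prop} (hirr : ∀ x, ¬ r x x)
    {x y : Fin n} (h2 : ¬ r y x) :
    ∀ a, ¬ cmpr r x y a a := by
  intro a
  unfold cmpr
  split_ifs with ha hb
  · subst ha; rintro (h | h)
    · exact hirr _ h
    · exact h2 h
  · subst hb; rintro ⟨_, h⟩; exact hirr _ h
  · exact hirr a

theorem cmpr_trans {r : Fin n → Fin n → Prop} (hirr : ∀ x, ¬ r x x)
    (htr : ∀ a b c, r a b → r b c → r a c)
    {x y : Fin n} (hxy : x ≠ y) (h1 : ¬ r x y) (h2 : ¬ r y x) :
    ∀ a b c, cmpr r x y a b → cmpr r x y b c → cmpr r x y a c := by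
  intro a b c hab hbc
  unfold cmpr at *
  have t1 := htr a b c
  have t2 := htr x b c
  have t3 := htr y b c
  have t4 := htr a b x
  have t5 := htr a b y
  have t6 := htr x b x
  have t7 := htr x b y
  have t8 := htr y b x
  have t9 := htr y b y
  have t10 := htr a x c
  have t11 := htr a y c
  have i1 := hirr x
  have i2 := hirr y
  split_ifs at * <;> simp_all <;> tauto

section

variable {r : Fin n → Fin n → Prop} {x y : Fin n}

theorem cmpr_x (b : Fin n) : cmpr r x y x b ↔ (r x b ∨ r y b) := by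
  unfold cmpr; rw [if_pos rfl]

theorem cmpr_y (hxy : x ≠ y) (b : Fin n) : cmpr r x y y b ↔ (r x b ∧ r y b) := by
  unfold cmpr; rw [if_neg hxy.symm, if_pos rfl]

theorem cmpr_ax {a : Fin n} (h1 : a ≠ x) (h2 : a ≠ y) :
    cmpr r x y a x ↔ (r a x ∧ r a y) := by
  unfold cmpr; rw [if_neg h1, if_neg h2, if_pos rfl]

theorem cmpr_ay (hxy : x ≠ y) {a : Fin n} (h1 : a ≠ x) (h2 : a ≠ y) :
    cmpr r x y a y ↔ (r a x ∨ r a y) := by
  unfold cmpr; rw [if_neg h1, if_neg h2, if_neg hxy.symm, if_pos rfl]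

theorem cmpr_ab {a b : Fin n} (h1 : a ≠ x) (h2 : a ≠ y) (h3 : b ≠ x) (h4 : b ≠ y) :
    cmpr r x y a b ↔ r a b := by
  unfold cmpr; rw [if_neg h1, if_neg h2, if_neg h3, if_neg h4]

theorem C_or_and (P Q : Prop) :
    (if P ∨ Q then (1 : ℕ) else 0) + (if P ∧ Q then 1 else 0)
      = (if P then 1 else 0) + (if Q then 1 else 0) := by
  by_cases hP : P <;> by_cases hQ : Q <;> simp [hP, hQ]

theorem C_congr {s t : Fin n → Fin n → Prop} {a b c d : Fin n} (h : s a b ↔ t c d) :
    C s a b = C t c d := by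
  unfold C
  by_cases h1 : s a b
  · rw [if_pos h1, if_pos (h.mp h1)]
  · rw [if_neg h1, if_neg (fun h2 => h1 (h.mpr h2))]

theorem C_xy (hxy : x ≠ y) (b : Fin n) :
    C (cmpr r x y) x b + C (cmpr r x y) y b = C r x b + C r y b := by
  have h := C_or_and (r x b) (r y b)
  unfold C
  simp only [cmpr_x, cmpr_y hxy]
  exact h

theorem C_axy (hxy : x ≠ y) {a : Fin n} (h1 : a ≠ x) (h2 : a ≠ y) :
    C (cmpr r x y) a x + C (cmpr r x y) a y = C r a x + C r a y := by
  have h := C_or_and (r a x) (r a y)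
  unfold C
  simp only [cmpr_ax h1 h2, cmpr_ay hxy h1 h2]
  omega

/-- number of elements above -/
noncomputable def up (r : Fin n → Fin n → Prop) (a : Fin n) : ℕ := ∑ b, C r a b

/-- number of elements below -/
noncomputable def dn (r : Fin n → Fin n → Prop) (a : Fin n) : ℕ := ∑ b, C r b a

theorem sum_split (hxy : x ≠ y) (f : Fin n → ℕ) :
    ∑ b, f b = f x + f y + ∑ b ∈ (univ.erase x).erase y, f b := by
  rw [← Finset.add_sum_erase univ f (Finset.mem_univ x),
    ← Finset.add_sum_erase (univ.erase x) f (a := y) (by simp [hxy.symm]), add_assoc]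

theorem mem_ee {b : Fin n} (hb : b ∈ (univ.erase x).erase y) : b ≠ x ∧ b ≠ y := by
  rw [Finset.mem_erase, Finset.mem_erase] at hb
  exact ⟨hb.2.1, hb.1⟩

theorem up_ab (hxy : x ≠ y) {a : Fin n} (h1 : a ≠ x) (h2 : a ≠ y) :
    up (cmpr r x y) a = up r a := by
  unfold up
  rw [sum_split hxy, sum_split hxy (fun b => C r a b), C_axy hxy h1 h2]
  congr 1
  apply Finset.sum_congr rfl
  intro b hb
  exact C_congr (cmpr_ab h1 h2 (mem_ee hb).1 (mem_ee hb).2)

theorem dn_ab (hxy : x ≠ y) {a : Fin n} (h1 : a ≠ x) (h2 : a ≠ y) :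
    dn (cmpr r x y) a = dn r a := by
  unfold dn
  rw [sum_split hxy, sum_split hxy (fun b => C r b a), C_xy hxy a]
  congr 1
  apply Finset.sum_congr rfl
  intro b hb
  exact C_congr (cmpr_ab (mem_ee hb).1 (mem_ee hb).2 h1 h2)

theorem up_xy (hxy : x ≠ y) :
    up (cmpr r x y) x + up (cmpr r x y) y = up r x + up r y := by
  unfold up
  rw [← Finset.sum_add_distrib, ← Finset.sum_add_distrib]
  exact Finset.sum_congr rfl (fun b _ => C_xy hxy b)

theorem dn_xy (hirr : ∀ x, ¬ r x x) (hxy : x ≠ y) (h1 : ¬ r x y) (h2 : ¬ r y x) :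
    dn (cmpr r x y) x + dn (cmpr r x y) y = dn r x + dn r y := by
  unfold dn
  rw [← Finset.sum_add_distrib, ← Finset.sum_add_distrib]
  apply Finset.sum_congr rfl
  intro b _
  by_cases hbx : b = x
  · subst hbx
    unfold C
    simp only [cmpr_x]
    simp [hirr, h1, h2]
  · by_cases hby : b = y
    · subst hby
      unfold C
      simp only [cmpr_y hxy]
      simp [hirr, h1, h2]
    · exact C_axy hxy hbx hby

theorem cp_cmpr (hxy : x ≠ y) : cp (cmpr r x y) univ = cp r univ := by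
  have h : ∀ s : Fin n → Fin n → Prop, cp s univ = ∑ a, up s a := fun s => rfl
  rw [h, h, sum_split hxy, sum_split hxy (fun a => up r a), up_xy hxy]
  congr 1
  exact Finset.sum_congr rfl (fun b hb => up_ab hxy (mem_ee hb).1 (mem_ee hb).2)

theorem sum_C_eq_card (s : Fin n → Prop) :
    ∑ b, (if s b then (1 : ℕ) else 0) = (univ.filter s).card := by
  rw [Finset.card_filter]

theorem up_x_ge (hxy : x ≠ y) (hy : ∃ z, r y z ∧ ¬ r x z) :
    up r x < up (cmpr r x y) x := by
  unfold up C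
  rw [sum_C_eq_card, sum_C_eq_card]
  apply Finset.card_lt_card
  rw [Finset.ssubset_iff_of_subset]
  · obtain ⟨z, hz1, hz2⟩ := hy
    exact ⟨z, by simp [cmpr_x, hz1], by simp [hz2]⟩
  · intro z hz
    simp only [Finset.mem_filter, Finset.mem_univ, true_and] at hz ⊢
    rw [cmpr_x]
    exact Or.inl hz

theorem up_x_le : up r x ≤ up (cmpr r x y) x := by
  unfold up C
  rw [sum_C_eq_card, sum_C_eq_card]
  apply Finset.card_le_card
  intro z hz
  simp only [Finset.mem_filter, Finset.mem_univ, true_and] at hz ⊢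
  rw [cmpr_x]
  exact Or.inl hz

theorem mem_dn_x (hirr : ∀ x, ¬ r x x) (hxy : x ≠ y) (h1 : ¬ r x y) (h2 : ¬ r y x) (z : Fin n) :
    cmpr r x y z x ↔ (r z x ∧ r z y) := by
  by_cases hzx : z = x
  · subst hzx
    rw [cmpr_x]
    simp [hirr, h1, h2]
  · by_cases hzy : z = y
    · subst hzy
      rw [cmpr_y hxy]
      simp [hirr, h2]
    · exact cmpr_ax hzx hzy

theorem dn_x_le (hirr : ∀ x, ¬ r x x) (hxy : x ≠ y) (h1 : ¬ r x y) (h2 : ¬ r y x) :
    dn (cmpr r x y) x ≤ dn r x := by
  unfold dn C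
  rw [sum_C_eq_card, sum_C_eq_card]
  apply Finset.card_le_card
  intro z hz
  simp only [Finset.mem_filter, Finset.mem_univ, true_and] at hz ⊢
  exact ((mem_dn_x hirr hxy h1 h2 z).mp hz).1

theorem dn_x_lt (hirr : ∀ x, ¬ r x x) (hxy : x ≠ y) (h1 : ¬ r x y) (h2 : ¬ r y x)
    (hy : ∃ z, r z x ∧ ¬ r z y) :
    dn (cmpr r x y) x < dn r x := by
  unfold dn C
  rw [sum_C_eq_card, sum_C_eq_card]
  apply Finset.card_lt_card
  rw [Finset.ssubset_iff_of_subset]
  · obtain ⟨z, hz1, hz2⟩ := hy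
    exact ⟨z, by simp [hz1], by simp [mem_dn_x hirr hxy h1 h2, hz2]⟩
  · intro z hz
    simp only [Finset.mem_filter, Finset.mem_univ, true_and] at hz ⊢
    exact ((mem_dn_x hirr hxy h1 h2 z).mp hz).1

/-- potential -/
noncomputable def pot (r : Fin n → Fin n → Prop) : ℤ :=
  ∑ a, ((up r a : ℤ) - dn r a) ^ 2

theorem sum_split_int (hxy : x ≠ y) (f : Fin n → ℤ) :
    ∑ b, f b = f x + f y + ∑ b ∈ (univ.erase x).erase y, f b := by
  rw [← Finset.add_sum_erase univ f (Finset.mem_univ x),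
    ← Finset.add_sum_erase (univ.erase x) f (a := y) (by simp [hxy.symm]), add_assoc]

theorem pot_lt (hirr : ∀ x, ¬ r x x) (hxy : x ≠ y) (h1 : ¬ r x y) (h2 : ¬ r y x)
    (hf : (up r y : ℤ) - dn r y ≤ (up r x : ℤ) - dn r x) (hn : ¬ tle r x y) :
    pot r < pot (cmpr r x y) := by
  unfold pot
  rw [sum_split_int hxy, sum_split_int hxy
    (fun a => ((up (cmpr r x y) a : ℤ) - dn (cmpr r x y) a) ^ 2)]
  have h3 : ∑ b ∈ (univ.erase x).erase y, ((up r b : ℤ) - dn r b) ^ 2
      = ∑ b ∈ (univ.erase x).erase y, ((up (cmpr r x y) b : ℤ) - dn (cmpr r x y) b) ^ 2 := by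
    apply Finset.sum_congr rfl
    intro b hb
    rw [up_ab hxy (mem_ee hb).1 (mem_ee hb).2, dn_ab hxy (mem_ee hb).1 (mem_ee hb).2]
  rw [h3]
  have h4 := up_xy (r := r) hxy
  have h5 := dn_xy hirr hxy h1 h2
  have h6 : (up r x : ℤ) - dn r x < (up (cmpr r x y) x : ℤ) - dn (cmpr r x y) x := by
    unfold tle at hn
    rw [not_and_or] at hn
    rcases hn with hn | hn
    · push Not at hn
      have a1 := dn_x_lt hirr hxy h1 h2 hn
      have a2 := up_x_le (r := r) (x := x) (y := y)
      omega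
    · push Not at hn
      have a1 := up_x_ge (r := r) hxy hn
      have a2 := dn_x_le hirr hxy h1 h2
      omega
  have h7 : (up (cmpr r x y) x : ℤ) + up (cmpr r x y) y = up r x + up r y := by exact_mod_cast h4
  have h8 : (dn (cmpr r x y) x : ℤ) + dn (cmpr r x y) y = dn r x + dn r y := by exact_mod_cast h5
  nlinarith

end

section ext

variable {r : Fin n → Fin n → Prop} {x y : Fin n}

theorem ext_aux (hirr : ∀ x, ¬ r x x) (hxy : x ≠ y) (h1 : ¬ r x y) (h2 : ¬ r y x)
    {σ : Equiv.Perm (Fin n)} :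
    σ ∈ extSet (cmpr r x y) ↔ (∀ a b, a ≠ x → a ≠ y → b ≠ x → b ≠ y → r a b → σ a < σ b) ∧
      (∀ b, r x b → σ x < σ b) ∧ (∀ b, r y b → σ x < σ b) ∧ (∀ b, r x b → r y b → σ y < σ b) ∧
      (∀ a, r a x → r a y → σ a < σ x) ∧ (∀ a, r a x → σ a < σ y) ∧ (∀ a, r a y → σ a < σ y) := by
  constructor
  · intro h
    refine ⟨?_, ?_, ?_, ?_, ?_, ?_, ?_⟩
    · intro a b a1 a2 b1 b2 hab
      exact h a b ((cmpr_ab a1 a2 b1 b2).mpr hab)
    · intro b hb
      exact h x b ((cmpr_x b).mpr (Or.inl hb))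
    · intro b hb
      exact h x b ((cmpr_x b).mpr (Or.inr hb))
    · intro b hb hb'
      exact h y b ((cmpr_y hxy b).mpr ⟨hb, hb'⟩)
    · intro a ha ha'
      exact h a x ((mem_dn_x hirr hxy h1 h2 a).mpr ⟨ha, ha'⟩)
    · intro a ha
      have a1 : a ≠ x := by rintro rfl; exact hirr _ ha
      have a2 : a ≠ y := by rintro rfl; exact h2 ha
      exact h a y ((cmpr_ay hxy a1 a2).mpr (Or.inl ha))
    · intro a ha
      have a1 : a ≠ x := by rintro rfl; exact h1 ha
      have a2 : a ≠ y := by rintro rfl; exact hirr _ ha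
      exact h a y ((cmpr_ay hxy a1 a2).mpr (Or.inr ha))
  · rintro ⟨k1, k2, k3, k4, k5, k6, k7⟩ a b hab
    by_cases a1 : a = x
    · subst a1
      rcases (cmpr_x b).mp hab with h | h
      · exact k2 b h
      · exact k3 b h
    · by_cases a2 : a = y
      · subst a2
        have h := (cmpr_y hxy b).mp hab
        exact k4 b h.1 h.2
      · by_cases b1 : b = x
        · subst b1
          have h := (cmpr_ax a1 a2).mp hab
          exact k5 a h.1 h.2
        · by_cases b2 : b = y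
          · subst b2
            rcases (cmpr_ay hxy a1 a2).mp hab with h | h
            · exact k6 a h
            · exact k7 a h
          · exact k1 a b a1 a2 b1 b2 ((cmpr_ab a1 a2 b1 b2).mp hab)

theorem ext_le (hirr : ∀ x, ¬ r x x) (hxy : x ≠ y) (h1 : ¬ r x y) (h2 : ¬ r y x) :
    (extSet r).ncard ≤ (extSet (cmpr r x y)).ncard := by
  -- a swapped extension
  have key : ∀ σ ∈ extSet r, σ ∉ extSet (cmpr r x y) →
      σ * Equiv.swap x y ∈ extSet (cmpr r x y) ∧ σ * Equiv.swap x y ∉ extSet r := by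
    intro σ hσ hσ'
    have hx : (σ * Equiv.swap x y) x = σ y := by simp
    have hy : (σ * Equiv.swap x y) y = σ x := by simp
    have hz : ∀ z, z ≠ x → z ≠ y → (σ * Equiv.swap x y) z = σ z := by
      intro z z1 z2
      simp [Equiv.swap_apply_of_ne_of_ne z1 z2]
    have xb : ∀ {b}, r x b → b ≠ x ∧ b ≠ y := fun h =>
      ⟨by rintro rfl; exact hirr _ h, by rintro rfl; exact h1 h⟩
    have yb : ∀ {b}, r y b → b ≠ x ∧ b ≠ y := fun h =>
      ⟨by rintro rfl; exact h2 h, by rintro rfl; exact hirr _ h⟩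
    have ax : ∀ {a}, r a x → a ≠ x ∧ a ≠ y := fun h =>
      ⟨by rintro rfl; exact hirr _ h, by rintro rfl; exact h2 h⟩
    have ay : ∀ {a}, r a y → a ≠ x ∧ a ≠ y := fun h =>
      ⟨by rintro rfl; exact h1 h, by rintro rfl; exact hirr _ h⟩
    have hlt : σ y < σ x := by
      by_contra hcon
      have hle : σ x < σ y := lt_of_le_of_ne (not_lt.mp hcon) (fun h => hxy (σ.injective h))
      apply hσ'
      rw [ext_aux hirr hxy h1 h2]
      refine ⟨fun a b _ _ _ _ h => hσ a b h, fun b h => hσ x b h, fun b h => hle.trans (hσ y b h),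
        fun b _ h => hσ y b h, fun a h _ => hσ a x h, fun a h => (hσ a x h).trans hle,
        fun a h => hσ a y h⟩
    refine ⟨?_, ?_⟩
    · rw [ext_aux hirr hxy h1 h2]
      refine ⟨?_, ?_, ?_, ?_, ?_, ?_, ?_⟩
      · intro a b a1 a2 b1 b2 h
        rw [hz a a1 a2, hz b b1 b2]
        exact hσ a b h
      · intro b h
        rw [hx, hz b (xb h).1 (xb h).2]
        exact hlt.trans (hσ x b h)
      · intro b h
        rw [hx, hz b (yb h).1 (yb h).2]
        exact hσ y b h
      · intro b h h'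
        rw [hy, hz b (xb h).1 (xb h).2]
        exact hσ x b h
      · intro a h h'
        rw [hx, hz a (ax h).1 (ax h).2]
        exact hσ a y h'
      · intro a h
        rw [hy, hz a (ax h).1 (ax h).2]
        exact hσ a x h
      · intro a h
        rw [hy, hz a (ay h).1 (ay h).2]
        exact (hσ a y h).trans hlt
    · intro hτ
      apply hσ'
      rw [ext_aux hirr hxy h1 h2]
      refine ⟨fun a b _ _ _ _ h => hσ a b h, fun b h => hσ x b h, ?_,
        fun b _ h => hσ y b h, fun a h _ => hσ a x h, ?_, fun a h => hσ a y h⟩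
      · intro b h
        have := hτ y b h
        rwa [hy, hz b (yb h).1 (yb h).2] at this
      · intro a h
        have := hτ a x h
        rwa [hx, hz a (ax h).1 (ax h).2] at this
  apply Set.ncard_le_ncard_of_injOn
    (fun σ => if σ ∈ extSet (cmpr r x y) then σ else σ * Equiv.swap x y)
  · intro σ hσ
    by_cases h : σ ∈ extSet (cmpr r x y)
    · simp only [h, if_true]
    · simp only [h, if_false]
      exact (key σ hσ h).1
  · intro σ hσ τ hτ h
    by_cases h3 : σ ∈ extSet (cmpr r x y)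
    · by_cases h4 : τ ∈ extSet (cmpr r x y)
      · simpa [h3, h4] using h
      · simp only [h3, if_true, h4, if_false] at h
        exact absurd hσ (h ▸ (key τ hτ h4).2)
    · by_cases h4 : τ ∈ extSet (cmpr r x y)
      · simp only [h3, if_false, h4, if_true] at h
        exact absurd hτ (h ▸ (key σ hσ h3).2)
      · simp only [h3, if_false, h4] at h
        exact mul_right_cancel h

end ext

theorem exists_total (r : Fin n → Fin n → Prop) (hirr : ∀ x, ¬ r x x)
    (htr : ∀ a b c, r a b → r b c → r a c) :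
    ∃ s : Fin n → Fin n → Prop, (∀ x, ¬ s x x) ∧ (∀ a b c, s a b → s b c → s a c) ∧
      (∀ x y, tle s x y ∨ tle s y x) ∧ cp s univ = cp r univ ∧
      (extSet r).ncard ≤ (extSet s).ncard := by
  let T := {s : Fin n → Fin n → Prop // (∀ x, ¬ s x x) ∧ (∀ a b c, s a b → s b c → s a c) ∧
      cp s univ = cp r univ ∧ (extSet r).ncard ≤ (extSet s).ncard}
  have : Nonempty T := ⟨⟨r, hirr, htr, rfl, le_rfl⟩⟩
  obtain ⟨⟨s, s1, s2, s3, s4⟩, hmax⟩ := Finite.exists_max (fun t : T => pot t.1)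
  refine ⟨s, s1, s2, ?_, s3, s4⟩
  have main : ∀ x y, (up s y : ℤ) - dn s y ≤ (up s x : ℤ) - dn s x → tle s x y ∨ tle s y x := by
    intro x y hf
    by_contra hcon
    rw [not_or] at hcon
    have hxy : x ≠ y := by
      rintro rfl
      exact hcon.1 (tle_refl s x)
    have h1 : ¬ s x y := by
      intro h
      exact hcon.1 ⟨fun z hz => s2 z x y hz h, fun z hz => s2 x y z h hz⟩
    have h2 : ¬ s y x := by
      intro h
      exact hcon.2 ⟨fun z hz => s2 z y x hz h, fun z hz => s2 y x z h hz⟩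
    have hp := pot_lt s1 hxy h1 h2 hf hcon.1
    have hm := hmax ⟨cmpr s x y, cmpr_irr s1 h2, cmpr_trans s1 s2 hxy h1 h2,
      (cp_cmpr hxy).trans s3, s4.trans (ext_le s1 hxy h1 h2)⟩
    exact absurd hp (not_lt.mpr hm)
  intro x y
  rcases le_total ((up s y : ℤ) - dn s y) ((up s x : ℤ) - dn s x) with h | h
  · exact main x y h
  · exact (main y x h).symm

end Pool.Agent.MP_f1b527_co
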