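import Mathlib
import Pool.Agent.MP_f1b527_co.Compress
import Pool.Agent.MP_f1b527_co.Bound

set_option autoImplicit false

namespace Pool.Agent.MP_f1b527_co

open Finset
open scoped Classical

variable {n : ℕ}

theorem extSet_ncard (r : Fin n → Fin n → Prop) (hirr : ∀ x, ¬ r x x) :
    (extSet r).ncard = lin r (univ : Finset (Fin n)) := by
  have hcard : (univ : Finset (Fin n)).card = n := by simp
  have hinj : Function.Injective (fun σ : Equiv.Perm (Fin n) => List.ofFn (fun i => σ.symm i)) := by
    intro σ τ h
    have h1 := List.ofFn_injective h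
    have h2 : σ.symm = τ.symm := Equiv.ext (fun i => congrFun h1 i)
    exact Equiv.symm_bijective.injective h2
  have himg : (fun σ : Equiv.Perm (Fin n) => List.ofFn (fun i => σ.symm i)) '' extSet r
      = ((LF r (univ : Finset (Fin n)).card (univ : Finset (Fin n)) : Finset (List (Fin n))) :
        Set (List (Fin n))) := by
    ext l
    simp only [Set.mem_image, Finset.mem_coe]
    rw [mem_LF r hirr rfl]
    constructor
    · rintro ⟨σ, hσ, rfl⟩
      refine ⟨?_, ?_, ?_⟩
      · rw [List.nodup_ofFn]
        exact σ.symm.injective
      · ext a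
        simp only [List.mem_toFinset, Finset.mem_univ, iff_true, List.mem_ofFn]
        exact ⟨σ a, by simp⟩
      · rw [List.pairwise_ofFn]
        intro i j hij hr
        have := hσ _ _ hr
        simp only [Equiv.apply_symm_apply] at this
        exact absurd this (not_lt.mpr hij.le)
    · rintro ⟨h1, h2, h3⟩
      have hlen : l.length = n := by
        rw [← List.toFinset_card_of_nodup h1, h2, hcard]
      let f : Fin n → Fin n := fun i => l.get (i.cast hlen.symm)
      have hf : Function.Injective f := by
        intro i j hij
        have := (List.nodup_iff_injective_get.mp h1) hij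
        simpa [Fin.ext_iff] using this
      have hofn : List.ofFn f = l := by
        apply List.ext_getElem
        · simp [hlen]
        · intro i hi1 hi2
          simp [f]
      refine ⟨(Equiv.ofBijective f (Finite.injective_iff_bijective.mp hf)).symm, ?_, ?_⟩
      · intro a b hab
        by_contra hcon
        rw [not_lt] at hcon
        set e := Equiv.ofBijective f (Finite.injective_iff_bijective.mp hf) with he
        have hne : e.symm b ≠ e.symm a := by
          intro h
          have := e.symm.injective h
          subst this
          exact hirr _ hab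
        have hlt : e.symm b < e.symm a := lt_of_le_of_ne hcon hne
        rw [← hofn, List.pairwise_ofFn] at h3
        apply h3 hlt
        have e1 : f (e.symm a) = a := e.apply_symm_apply a
        have e2 : f (e.symm b) = b := e.apply_symm_apply b
        rw [e1, e2]
        exact hab
      · rw [Equiv.symm_symm]
        exact hofn
  have h := Set.ncard_image_of_injective (extSet r) hinj
  rw [himg, Set.ncard_coe_finset] at h
  rw [← h]
  rfl

/-- upper bound for arbitrary strict orders -/
theorem ext_bound (r : Fin n → Fin n → Prop) (hirr : ∀ x, ¬ r x x)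
    (htr : ∀ a b c, r a b → r b c → r a c) {δ b c : ℕ} (hb : 1 ≤ b)
    (hbc : (b + 1) * (c + 1) ≤ n + 1) (hcp : cp r univ + mm b c n = n.choose 2 + δ) :
    (extSet r).ncard * (δ + c + 1) ≤ (c + 1) * EE b c n := by
  obtain ⟨s, s1, s2, s3, s4, s5⟩ := exists_total r hirr htr
  have hasym : ∀ x y, s x y → ¬ s y x := fun x y h1 h2 => s1 x (s2 x y x h1 h2)
  have h := lin_bound s s1 hasym s3 n (univ : Finset (Fin n)) (by simp) δ b c hb hbc
    (by rw [s4]; exact hcp)
  rw [← extSet_ncard s s1] at h
  exact (Nat.mul_le_mul_right _ s5).trans h

/-! ### levels -/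

section levels

variable {X : Type*} [DecidableEq X]

/-- product of factorials of level sizes -/
def F (ℓ : X → ℕ) (V : ℕ) (S : Finset X) : ℕ :=
  ∏ v ∈ range V, (S.filter (fun x => ℓ x = v)).card.factorial

theorem F_erase (ℓ : X → ℕ) (V : ℕ) {S : Finset X} {x : X} (hx : x ∈ S) (hV : ℓ x < V) :
    F ℓ V S = (S.filter (fun y => ℓ y = ℓ x)).card * F ℓ V (S.erase x) := by
  unfold F
  have hm : ℓ x ∈ range V := Finset.mem_range.mpr hV
  rw [← Finset.mul_prod_erase _ _ hm, ← Finset.mul_prod_erase (range V)
    (fun v => ((S.erase x).filter (fun y => ℓ y = v)).card.factorial) hm, ← mul_assoc]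
  congr 1
  · have h1 : (S.erase x).filter (fun y => ℓ y = ℓ x) = (S.filter (fun y => ℓ y = ℓ x)).erase x := by
      rw [Finset.filter_erase]
    have h2 : x ∈ S.filter (fun y => ℓ y = ℓ x) := Finset.mem_filter.mpr ⟨hx, rfl⟩
    rw [h1, Finset.card_erase_of_mem h2]
    exact (Nat.mul_factorial_pred (Finset.card_pos.mpr ⟨x, h2⟩).ne').symm
  · apply Finset.prod_congr rfl
    intro v hv
    have hv' : v ≠ ℓ x := (Finset.mem_erase.mp hv).1
    have h1 : (S.erase x).filter (fun y => ℓ y = v) = S.filter (fun y => ℓ y = v) := by
      rw [Finset.filter_erase, Finset.erase_eq_of_notMem]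
      intro h
      exact hv' (Finset.mem_filter.mp h).2.symm
    rw [h1]

/-- size of the star centred at `x0` inside `S` -/
def star (x0 : X) (J S : Finset X) : ℕ := if x0 ∈ S then (J ∩ S).card else 0

theorem lin_levels (ℓ : X → ℕ) (V : ℕ) (hV : ∀ x, ℓ x < V) (x0 : X) (J : Finset X)
    (hx0 : x0 ∉ J) (hJ : ∀ y ∈ J, ℓ y = ℓ x0) (r : X → X → Prop) [DecidableRel r]
    (hr : ∀ x y, r x y ↔ (ℓ x < ℓ y ∨ (x = x0 ∧ y ∈ J))) (S : Finset X) :
    lin r S * (1 + star x0 J S) = F ℓ V S := by
  induction hn : S.card generalizing S with
  | zero =>
    rw [Finset.card_eq_zero] at hn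
    subst hn
    simp [lin_empty, star, F]
  | succ n ih =>
    have hne : S.Nonempty := by
      rw [← Finset.card_pos]; omega
    obtain ⟨x1, hx1, hmin⟩ := Finset.exists_min_image S ℓ hne
    set T := S.filter (fun y => ℓ y = ℓ x1) with hT
    have hTpos : 0 < T.card := Finset.card_pos.mpr ⟨x1, Finset.mem_filter.mpr ⟨hx1, rfl⟩⟩
    set c := F ℓ V (S.erase x1) with hc
    have hFS : F ℓ V S = T.card * c := F_erase ℓ V hx1 (hV x1)
    have hFx : ∀ x ∈ T, F ℓ V (S.erase x) = c := by
      intro x hx
      have hx' := Finset.mem_filter.mp hx
      have h1 := F_erase ℓ V hx'.1 (hV x)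
      rw [hx'.2, ← hT, hFS] at h1
      exact (Nat.eq_of_mul_eq_mul_left hTpos h1).symm
    have hminsT : mins r S ⊆ T := by
      intro x hx
      rw [mem_mins] at hx
      rw [hT, Finset.mem_filter]
      refine ⟨hx.1, ?_⟩
      have h1 := hx.2 x1 hx1
      rw [hr, not_or] at h1
      have h2 := hmin x hx.1
      omega
    have hih : ∀ x ∈ mins r S, lin r (S.erase x) * (1 + star x0 J (S.erase x)) = c := by
      intro x hx
      have hxT := hminsT hx
      have hxS := (Finset.mem_filter.mp hxT).1
      rw [ih (S.erase x) (by rw [Finset.card_erase_of_mem hxS, hn, Nat.add_sub_cancel])]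
      exact hFx x hxT
    rw [lin_rec r hne, Finset.sum_mul, hFS]
    by_cases hact : x0 ∈ S ∧ ℓ x0 = ℓ x1
    · -- active star
      have hx0T : x0 ∈ T := Finset.mem_filter.mpr hact
      have hstar : star x0 J S = (J ∩ S).card := by
        unfold star; rw [if_pos hact.1]
      have hmins : mins r S = T \ (J ∩ S) := by
        ext x
        rw [Finset.mem_sdiff, Finset.mem_inter]
        constructor
        · intro hx
          refine ⟨hminsT hx, ?_⟩
          rintro ⟨hxJ, _⟩
          rw [mem_mins] at hx
          exact hx.2 x0 hact.1 ((hr _ _).mpr (Or.inr ⟨rfl, hxJ⟩))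
        · rintro ⟨hxT, hxJ⟩
          have hx' := Finset.mem_filter.mp hxT
          rw [mem_mins]
          refine ⟨hx'.1, ?_⟩
          intro y hy hryx
          rw [hr] at hryx
          rcases hryx with h | h
          · have := hmin y hy
            omega
          · exact hxJ ⟨h.2, hx'.1⟩
      have hsub : J ∩ S ⊆ T := by
        intro y hy
        rw [Finset.mem_inter] at hy
        rw [hT, Finset.mem_filter]
        exact ⟨hy.2, by rw [hJ y hy.1, hact.2]⟩
      have hx0m : x0 ∈ mins r S := by
        rw [hmins, Finset.mem_sdiff, Finset.mem_inter]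
        exact ⟨hx0T, fun h => hx0 h.1⟩
      rw [← Finset.add_sum_erase _ _ hx0m]
      have h1 : lin r (S.erase x0) = c := by
        have := hih x0 hx0m
        unfold star at this
        rw [if_neg (Finset.notMem_erase x0 S)] at this
        simpa using this
      have h2 : ∀ x ∈ (mins r S).erase x0, lin r (S.erase x) * (1 + star x0 J S) = c := by
        intro x hx
        rw [Finset.mem_erase] at hx
        have := hih x hx.2
        have hxJ : x ∉ J := by
          intro h
          rw [hmins, Finset.mem_sdiff, Finset.mem_inter] at hx
          exact hx.2.2 ⟨h, (Finset.mem_filter.mp hx.2.1).1⟩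
        have hs : star x0 J (S.erase x) = star x0 J S := by
          unfold star
          rw [if_pos hact.1, if_pos (Finset.mem_erase.mpr ⟨hx.1.symm, hact.1⟩)]
          congr 1
          ext y
          simp only [Finset.mem_inter, Finset.mem_erase]
          constructor
          · rintro ⟨a1, a2, a3⟩; exact ⟨a1, a3⟩
          · rintro ⟨a1, a2⟩
            exact ⟨a1, by rintro rfl; exact hxJ a1, a2⟩
        rw [hs] at this
        exact this
      rw [Finset.sum_congr rfl h2, h1, Finset.sum_const, smul_eq_mul,
        Finset.card_erase_of_mem hx0m, hmins, Finset.card_sdiff_of_subset hsub, hstar]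
      have hle : (J ∩ S).card + 1 ≤ T.card := by
        have : insert x0 (J ∩ S) ⊆ T := Finset.insert_subset hx0T hsub
        have h3 := Finset.card_le_card this
        rw [Finset.card_insert_of_notMem (fun h => hx0 (Finset.mem_inter.mp h).1)] at h3
        exact h3
      obtain ⟨w, hw⟩ := Nat.exists_eq_add_of_le hle
      have e1 : T.card - (J ∩ S).card - 1 = w := by omega
      rw [e1, hw]
      ring
    · -- inactive star
      have hmins : mins r S = T := by
        apply Finset.Subset.antisymm hminsT
        intro x hxT
        have hx' := Finset.mem_filter.mp hxT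
        rw [mem_mins]
        refine ⟨hx'.1, ?_⟩
        intro y hy hryx
        rw [hr] at hryx
        rcases hryx with h | h
        · have := hmin y hy
          omega
        · apply hact
          refine ⟨h.1 ▸ hy, ?_⟩
          rw [← hJ x h.2]
          exact hx'.2
      have h2 : ∀ x ∈ mins r S, lin r (S.erase x) * (1 + star x0 J S) = c := by
        intro x hx
        have := hih x hx
        have hs : star x0 J (S.erase x) = star x0 J S := by
          unfold star
          by_cases h0 : x0 ∈ S
          · have hl : ℓ x0 ≠ ℓ x1 := fun h => hact ⟨h0, h⟩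
            rw [hmins] at hx
            have hx' := Finset.mem_filter.mp hx
            have hxx0 : x ≠ x0 := by
              rintro rfl
              exact hl hx'.2
            have hxJ : x ∉ J := by
              intro h
              exact hl (by rw [← hJ x h]; exact hx'.2)
            rw [if_pos h0, if_pos (Finset.mem_erase.mpr ⟨hxx0.symm, h0⟩)]
            congr 1
            ext y
            simp only [Finset.mem_inter, Finset.mem_erase]
            constructor
            · rintro ⟨a1, a2, a3⟩; exact ⟨a1, a3⟩
            · rintro ⟨a1, a2⟩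
              exact ⟨a1, by rintro rfl; exact hxJ a1, a2⟩
          · rw [if_neg h0, if_neg (fun h => h0 (Finset.mem_of_mem_erase h))]
        rw [hs] at this
        exact this
      rw [Finset.sum_congr rfl h2, hmins, Finset.sum_const, smul_eq_mul]

end levels

end Pool.Agent.MP_f1b527_co
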