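import Mathlib
import Pool.Agent.MP_f1b527_co.Count

set_option autoImplicit false

namespace Pool.Agent.MP_f1b527_co

open Finset
open scoped Classical

/-- rank of `i` among the smaller elements of its level -/
def g (ℓ : ℕ → ℕ) (i : ℕ) : ℕ := ((range i).filter (fun j => ℓ j = ℓ i)).card

/-- number of ordered pairs in the same level -/
def same (ℓ : ℕ → ℕ) (N : ℕ) : ℕ := ∑ x ∈ range N, ∑ y ∈ range N, if ℓ x = ℓ y then 1 else 0

theorem same_eq (ℓ : ℕ → ℕ) (N : ℕ) : same ℓ N = 2 * ∑ i ∈ range N, g ℓ i + N := by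
  induction N with
  | zero => simp [same]
  | succ N ih =>
    unfold same at *
    rw [Finset.sum_range_succ]
    have h1 : ∀ x ∈ range N, ∑ y ∈ range (N + 1), (if ℓ x = ℓ y then 1 else 0)
        = ∑ y ∈ range N, (if ℓ x = ℓ y then 1 else 0) + if ℓ x = ℓ N then 1 else 0 := by
      intro x _
      rw [Finset.sum_range_succ]
    rw [Finset.sum_congr rfl h1, Finset.sum_add_distrib, ih, Finset.sum_range_succ,
      Finset.sum_range_succ]
    have h2 : ∑ x ∈ range N, (if ℓ x = ℓ N then 1 else 0) = g ℓ N := by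
      unfold g
      rw [Finset.card_filter]
    have h3 : ∑ x ∈ range N, (if ℓ N = ℓ x then 1 else 0) = g ℓ N := by
      rw [← h2]
      apply Finset.sum_congr rfl
      intro x _
      by_cases h : ℓ x = ℓ N
      · rw [if_pos h, if_pos h.symm]
      · rw [if_neg h, if_neg (fun h' => h h'.symm)]
    rw [h2, h3, if_pos rfl]
    ring

theorem F_range (ℓ : ℕ → ℕ) (V : ℕ) (hV : ∀ x, ℓ x < V) (N : ℕ) :
    F ℓ V (range N) = ∏ i ∈ range N, (g ℓ i + 1) := by
  induction N with
  | zero => simp [F]
  | succ N ih =>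
    rw [F_erase ℓ V (x := N) (by simp) (hV N), Finset.prod_range_succ, ← ih, mul_comm]
    congr 1
    · congr 1
      ext x
      simp only [Finset.mem_erase, Finset.mem_range]
      omega
    · unfold g
      rw [Finset.range_add_one, Finset.filter_insert, if_pos rfl, Finset.card_insert_of_notMem]
      simp

theorem card_fin_filter (n : ℕ) (p : ℕ → Prop) [DecidablePred p] :
    ((univ : Finset (Fin n)).filter (fun x : Fin n => p (x : ℕ))).card
      = ((range n).filter p).card := by
  rw [Finset.card_filter, Finset.card_filter, ← Fin.sum_univ_eq_sum_range (fun i => if p i then 1 else 0)]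

theorem F_fin (ℓ : ℕ → ℕ) (V n : ℕ) :
    F (fun x : Fin n => ℓ x) V univ = F ℓ V (range n) := by
  unfold F
  apply Finset.prod_congr rfl
  intro v _
  congr 1
  exact card_fin_filter n (fun x => ℓ x = v)

theorem same_fin (ℓ : ℕ → ℕ) (n : ℕ) :
    ∑ x : Fin n, ∑ y : Fin n, (if ℓ x = ℓ y then 1 else 0) = same ℓ n := by
  unfold same
  rw [← Fin.sum_univ_eq_sum_range (fun x => ∑ y ∈ range n, if ℓ x = ℓ y then 1 else 0)]
  apply Finset.sum_congr rfl
  intro x _
  rw [Fin.sum_univ_eq_sum_range (fun y => if ℓ x = ℓ y then 1 else 0)]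

/-- the level function: `c` elements in level `b`, the others spread over the `b` levels below -/
def lev (b c n i : ℕ) : ℕ := if i < n - c then i % b else b

theorem lev_lt {b : ℕ} (hb : 1 ≤ b) (c n i : ℕ) : lev b c n i < b + 1 := by
  unfold lev
  split_ifs
  · have := Nat.mod_lt i hb; omega
  · omega

theorem g_lev_lt {b : ℕ} (hb : 1 ≤ b) {c n i : ℕ} (hi : i < n - c) : g (lev b c n) i = i / b := by
  unfold g
  have h1 : (range i).filter (fun j => lev b c n j = lev b c n i)
      = (range i).filter (fun j => j ≡ i [MOD b]) := by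
    apply Finset.filter_congr
    intro j hj
    rw [Finset.mem_range] at hj
    unfold lev
    rw [if_pos hi, if_pos (by omega)]
    rfl
  rw [h1, ← Nat.count_eq_card_filter_range, Nat.count_modEq_card _ hb]
  simp

theorem g_lev_ge {b : ℕ} (hb : 1 ≤ b) {c n i : ℕ} (hi : n - c ≤ i) :
    g (lev b c n) i = i - (n - c) := by
  unfold g
  have h1 : (range i).filter (fun j => lev b c n j = lev b c n i) = Finset.Ico (n - c) i := by
    ext j
    rw [Finset.mem_filter, Finset.mem_range, Finset.mem_Ico]
    unfold lev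
    rw [if_neg (by omega : ¬ i < n - c)]
    split_ifs with h
    · have := Nat.mod_lt j hb
      omega
    · omega
  rw [h1, Nat.card_Ico]

theorem sum_g_lev {b c n : ℕ} (hb : 1 ≤ b) (hc : c ≤ n) :
    ∑ i ∈ range n, g (lev b c n) i = mm b c n := by
  have h1 : n = (n - c) + c := by omega
  have h2 : ∑ i ∈ range n, g (lev b c n) i
      = ∑ i ∈ range ((n - c) + c), g (lev b c n) i := by rw [← h1]
  rw [h2, Finset.sum_range_add, Finset.sum_congr rfl
    (fun i hi => g_lev_lt hb (Finset.mem_range.mp hi))]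
  rw [Finset.sum_congr (s₁ := range c) rfl (g := fun i => i)
    (fun i _ => by rw [g_lev_ge hb (by omega)]; omega)]
  unfold mm
  rw [Finset.sum_range_id, Nat.choose_two_right]
  ring

theorem prod_g_lev {b c n : ℕ} (hb : 1 ≤ b) (hc : c ≤ n) :
    ∏ i ∈ range n, (g (lev b c n) i + 1) = EE b c n := by
  have h1 : n = (n - c) + c := by omega
  have h2 : ∏ i ∈ range n, (g (lev b c n) i + 1)
      = ∏ i ∈ range ((n - c) + c), (g (lev b c n) i + 1) := by rw [← h1]
  rw [h2, Finset.prod_range_add, Finset.prod_congr rfl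
    (fun i hi => by rw [g_lev_lt hb (Finset.mem_range.mp hi)])]
  rw [Finset.prod_congr rfl (s₁ := range c) (g := fun i => i + 1)
    (fun i _ => by rw [g_lev_ge hb (by omega)]; omega)]
  unfold EE
  rw [Finset.prod_range_add_one_eq_factorial]
  ring

theorem exists_order {b c n j : ℕ} (hb : 1 ≤ b) (hc : c ≤ n) (hn : 1 ≤ n)
    (hj : j = 0 ∨ (c = 0 ∧ j * b < n)) :
    ∃ r : Fin n → Fin n → Prop, (∀ x, ¬ r x x) ∧ (∀ x y z, r x y → r y z → r x z) ∧
      cp r univ + mm b c n = n.choose 2 + j ∧ (extSet r).ncard * (j + 1) = EE b c n := by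
  let x0 : Fin n := ⟨0, hn⟩
  let ℓ : Fin n → ℕ := fun x => lev b c n x
  let J : Finset (Fin n) := univ.filter (fun y => ∃ i, 1 ≤ i ∧ i ≤ j ∧ (y : ℕ) = i * b)
  have hx0J : x0 ∉ J := by
    intro h
    obtain ⟨i, h1, _, h3⟩ := (Finset.mem_filter.mp h).2
    have h3' : 0 = i * b := h3
    have : 1 * 1 ≤ i * b := Nat.mul_le_mul h1 hb
    omega
  have hJcard : J.card = j := by
    rcases hj with rfl | ⟨_, hjb⟩
    · rw [Finset.card_eq_zero, Finset.filter_eq_empty_iff]
      rintro y _ ⟨i, h1, h2, _⟩
      omega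
    · have hinj : Function.Injective (fun i : Fin j => (⟨((i : ℕ) + 1) * b, by
          have : ((i : ℕ) + 1) * b ≤ j * b := Nat.mul_le_mul_right _ i.2
          omega⟩ : Fin n)) := by
        intro i i' h
        simp only [Fin.mk.injEq] at h
        have := Nat.eq_of_mul_eq_mul_right hb h
        exact Fin.ext (by omega)
      have himg : J = univ.image (fun i : Fin j => (⟨((i : ℕ) + 1) * b, by
          have : ((i : ℕ) + 1) * b ≤ j * b := Nat.mul_le_mul_right _ i.2
          omega⟩ : Fin n)) := by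
        ext y
        simp only [J, Finset.mem_filter, Finset.mem_univ, true_and, Finset.mem_image]
        constructor
        · rintro ⟨i, h1, h2, h3⟩
          refine ⟨⟨i - 1, by omega⟩, ?_⟩
          apply Fin.ext
          simp only
          rw [h3, Nat.sub_add_cancel h1]
        · rintro ⟨i, rfl⟩
          exact ⟨(i : ℕ) + 1, by omega, i.2, rfl⟩
      rw [himg, Finset.card_image_of_injective _ hinj, Finset.card_univ, Fintype.card_fin]
  have hJℓ : ∀ y ∈ J, ℓ y = ℓ x0 := by
    intro y hy
    obtain ⟨i, h1, h2, h3⟩ := (Finset.mem_filter.mp hy).2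
    rcases hj with rfl | ⟨rfl, hjb⟩
    · omega
    · have hy2 := y.2
      simp only [ℓ, lev, x0, Nat.sub_zero]
      rw [if_pos hy2, if_pos (by omega), h3]
      simp
  have hℓV : ∀ x, ℓ x < b + 1 := fun x => lev_lt hb c n x
  obtain ⟨r, hr⟩ : ∃ r : Fin n → Fin n → Prop,
      ∀ x y, r x y ↔ (ℓ x < ℓ y ∨ (x = x0 ∧ y ∈ J)) :=
    ⟨fun x y => ℓ x < ℓ y ∨ (x = x0 ∧ y ∈ J), fun x y => Iff.rfl⟩
  have hirr : ∀ x, ¬ r x x := by
    intro x h
    rw [hr] at h
    rcases h with h | ⟨h1, h2⟩
    · exact lt_irrefl _ h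
    · exact hx0J (h1 ▸ h2)
  refine ⟨r, hirr, ?_, ?_, ?_⟩
  · intro x y z h1 h2
    rw [hr] at h1 h2 ⊢
    rcases h1 with h1 | h1 <;> rcases h2 with h2 | h2
    · exact Or.inl (h1.trans h2)
    · refine Or.inl ?_
      rw [hJℓ z h2.2, ← h2.1]
      exact h1
    · refine Or.inl ?_
      rw [h1.1, ← hJℓ y h1.2]
      exact h2
    · exact absurd (h2.1 ▸ h1.2) hx0J
  · -- counting comparable pairs
    have hC : ∀ x y, C r x y = (if ℓ x < ℓ y then 1 else 0) + (if x = x0 ∧ y ∈ J then 1 else 0) := by
      intro x y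
      unfold C
      by_cases h1 : ℓ x < ℓ y
      · have h2 : ¬ (x = x0 ∧ y ∈ J) := by
          rintro ⟨h3, h4⟩
          rw [h3, hJℓ y h4] at h1
          exact lt_irrefl _ h1
        have h5 : r x y := (hr x y).mpr (Or.inl h1)
        rw [if_pos h5, if_pos h1, if_neg h2]
      · by_cases h2 : x = x0 ∧ y ∈ J
        · have h5 : r x y := (hr x y).mpr (Or.inr h2)
          rw [if_pos h5, if_neg h1, if_pos h2]
        · have h5 : ¬ r x y := fun h => ((hr x y).mp h).elim h1 h2
          rw [if_neg h5, if_neg h1, if_neg h2]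
    have h1 : cp r univ = ∑ x, ∑ y, (if ℓ x < ℓ y then 1 else 0) + j := by
      unfold cp
      simp_rw [hC, Finset.sum_add_distrib]
      congr 1
      rw [Finset.sum_eq_single x0]
      · simp only [true_and]
        rw [← hJcard, ← Finset.card_filter]
        congr 1
        ext y
        simp
      · intro x _ hx
        simp [hx]
      · intro h
        exact absurd (Finset.mem_univ _) h
    have h2 : ∑ x, ∑ y, (if ℓ y < ℓ x then 1 else 0) = ∑ x, ∑ y, (if ℓ x < ℓ y then 1 else 0) := by
      rw [Finset.sum_comm]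
    have h3 : ∑ x, ∑ y, ((if ℓ x < ℓ y then 1 else 0) + (if ℓ y < ℓ x then 1 else 0)
        + (if ℓ x = ℓ y then 1 else 0)) = ∑ _x : Fin n, ∑ _y : Fin n, 1 := by
      apply Finset.sum_congr rfl
      intro x _
      apply Finset.sum_congr rfl
      intro y _
      rcases lt_trichotomy (ℓ x) (ℓ y) with h | h | h
      · rw [if_pos h, if_neg (by omega), if_neg (by omega)]
      · rw [if_neg (by omega), if_neg (by omega), if_pos h]
      · rw [if_neg (by omega), if_pos h, if_neg (by omega)]
    simp_rw [Finset.sum_add_distrib] at h3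
    have h4 : ∑ x, ∑ y, (if ℓ x = ℓ y then 1 else 0) = same (lev b c n) n := same_fin (lev b c n) n
    rw [h2, h4, same_eq, sum_g_lev hb hc] at h3
    simp only [Finset.sum_const, Finset.card_univ, Fintype.card_fin, smul_eq_mul, mul_one] at h3
    have h5 : 2 * n.choose 2 + n = n * n := by
      have := Finset.sum_range_id_mul_two n
      have h := Finset.sum_range_id n
      rw [← Nat.choose_two_right] at h
      rw [h] at this
      cases n with
      | zero => omega
      | succ k =>
        rw [Nat.add_sub_cancel] at this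
        nlinarith
    rw [h1]
    omega
  · rw [extSet_ncard r hirr]
    have h1 := lin_levels ℓ (b + 1) hℓV x0 J hx0J hJℓ r hr univ
    have h2 : star x0 J univ = j := by
      unfold star
      rw [if_pos (Finset.mem_univ _), Finset.inter_univ, hJcard]
    have h3 : F ℓ (b + 1) univ = EE b c n := by
      rw [← prod_g_lev hb hc, ← F_range (lev b c n) (b + 1) (fun x => lev_lt hb c n x) n]
      exact F_fin (lev b c n) (b + 1) n
    rw [h2, h3] at h1
    rw [add_comm j 1]
    exact h1

end Pool.Agent.MP_f1b527_co
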