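import Mathlib
import Pool.Agent.MP_f1b527_co.Constr

set_option autoImplicit false

namespace Pool.Agent.MP_f1b527_co

open Finset
open scoped Classical

variable {n : ℕ}

/-- removing a covering pair -/
theorem remove_one (r : Fin n → Fin n → Prop) (hirr : ∀ x, ¬ r x x)
    (htr : ∀ a b c, r a b → r b c → r a c) {k : ℕ} (hk : cp r univ = k + 1) :
    ∃ s : Fin n → Fin n → Prop, (∀ x, ¬ s x x) ∧ (∀ a b c, s a b → s b c → s a c) ∧
      cp s univ = k ∧ extSet r ⊆ extSet s := by
  have hpos : 0 < ∑ a : Fin n, ∑ b : Fin n, C r a b := by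
    have : cp r univ = ∑ a : Fin n, ∑ b : Fin n, C r a b := rfl
    omega
  obtain ⟨x, _, hx⟩ := Finset.exists_ne_zero_of_sum_ne_zero (ne_of_gt hpos)
  obtain ⟨y0, _, hy0⟩ := Finset.exists_ne_zero_of_sum_ne_zero hx
  have hxy0 : r x y0 := by
    by_contra h
    apply hy0
    unfold C
    rw [if_neg h]
  obtain ⟨y, hy, hmax⟩ := Finset.exists_max_image (univ.filter (fun y => r x y)) (up r)
    ⟨y0, by simp [hxy0]⟩
  have hxy : r x y := by simpa using hy
  have hcov : ∀ z, r x z → r z y → False := by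
    intro z h1 h2
    have h3 := hmax z (by simp [h1])
    have h4 : up r y < up r z := by
      unfold up C
      rw [sum_C_eq_card, sum_C_eq_card]
      apply Finset.card_lt_card
      rw [Finset.ssubset_iff_of_subset]
      · exact ⟨y, by simp [h2], by simp [hirr]⟩
      · intro w hw
        simp only [Finset.mem_filter, Finset.mem_univ, true_and] at hw ⊢
        exact htr z y w h2 hw
    omega
  obtain ⟨s, hs⟩ : ∃ s : Fin n → Fin n → Prop, ∀ a b, s a b ↔ (r a b ∧ ¬ (a = x ∧ b = y)) :=
    ⟨fun a b => r a b ∧ ¬ (a = x ∧ b = y), fun a b => Iff.rfl⟩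
  refine ⟨s, ?_, ?_, ?_, ?_⟩
  · intro a h
    exact hirr a ((hs a a).mp h).1
  · intro a b c h1 h2
    rw [hs] at h1 h2 ⊢
    refine ⟨htr a b c h1.1 h2.1, ?_⟩
    rintro ⟨rfl, rfl⟩
    exact hcov b h1.1 h2.1
  · have h1 : ∀ a b, C r a b = C s a b + (if a = x ∧ b = y then 1 else 0) := by
      intro a b
      unfold C
      by_cases h : a = x ∧ b = y
      · have h2 : ¬ s a b := fun h' => ((hs a b).mp h').2 h
        rw [if_pos h, if_neg h2, if_pos (by rw [h.1, h.2]; exact hxy)]
      · rw [if_neg h]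
        by_cases h2 : r a b
        · rw [if_pos h2, if_pos ((hs a b).mpr ⟨h2, h⟩)]
        · rw [if_neg h2, if_neg (fun h' => h2 ((hs a b).mp h').1)]
    have h2 : cp r univ = cp s univ + 1 := by
      unfold cp
      simp_rw [h1, Finset.sum_add_distrib]
      congr 1
      rw [Finset.sum_eq_single x, Finset.sum_eq_single y]
      · simp
      · intro b _ hb; simp [hb]
      · intro h; exact absurd (Finset.mem_univ _) h
      · intro b _ hb; simp [hb]
      · intro h; exact absurd (Finset.mem_univ _) h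
    omega
  · intro σ hσ a b hab
    exact hσ a b ((hs a b).mp hab).1

theorem remove_many (r : Fin n → Fin n → Prop) (hirr : ∀ x, ¬ r x x)
    (htr : ∀ a b c, r a b → r b c → r a c) {k : ℕ} (hk : k ≤ cp r univ) :
    ∃ s : Fin n → Fin n → Prop, (∀ x, ¬ s x x) ∧ (∀ a b c, s a b → s b c → s a c) ∧
      cp s univ = k ∧ (extSet r).ncard ≤ (extSet s).ncard := by
  obtain ⟨d, hd⟩ := Nat.exists_eq_add_of_le hk
  induction d generalizing r with
  | zero => exact ⟨r, hirr, htr, by omega, le_rfl⟩
  | succ d ih =>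
    obtain ⟨s, s1, s2, s3, s4⟩ := remove_one r hirr htr (k := k + d) (by omega)
    obtain ⟨t, t1, t2, t3, t4⟩ := ih s s1 s2 (by omega) s3
    exact ⟨t, t1, t2, t3, (Set.ncard_le_ncard s4 (Set.toFinite _)).trans t4⟩

end Pool.Agent.MP_f1b527_co
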