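import Mathlib
import Pool.Agent.MP_f1b527_co.Mono

set_option autoImplicit false

namespace Pool.Agent.MP_f1b527_co

open Finset

theorem mm_one_zero (n : ℕ) : mm 1 0 n = n.choose 2 := by
  unfold mm
  simp only [Nat.div_one, Nat.sub_zero]
  rw [Finset.sum_range_id, ← Nat.choose_two_right]
  simp

theorem mm_self_zero (n : ℕ) : mm n 0 n = 0 := by
  unfold mm
  simp only [Nat.sub_zero]
  rw [Finset.sum_eq_zero]
  · simp
  · intro i hi
    exact Nat.div_eq_of_lt (Finset.mem_range.mp hi)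

theorem cover {n m : ℕ} (hn : 1 ≤ n) (hm : m ≤ n.choose 2) :
    ∃ b c : ℕ, 1 ≤ b ∧ (b + 1) * (c + 1) ≤ n + 1 ∧ c + 1 ≤ n ∧ m ≤ mm b c n ∧
      (mm b (c + 1) n ≤ m) := by
  classical
  have hP : ∃ b, b ≤ n ∧ 1 ≤ b ∧ m ≤ mm b 0 n := ⟨1, hn, le_rfl, by rw [mm_one_zero]; exact hm⟩
  have hfb : ∃ b, (b ≤ n ∧ 1 ≤ b ∧ m ≤ mm b 0 n) ∧
      ∀ b', (b' ≤ n ∧ 1 ≤ b' ∧ m ≤ mm b' 0 n) → b' ≤ b := by
    have hne : ((range (n + 1)).filter (fun b => 1 ≤ b ∧ m ≤ mm b 0 n)).Nonempty := by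
      obtain ⟨b, h1, h2⟩ := hP
      exact ⟨b, by rw [Finset.mem_filter, Finset.mem_range]; exact ⟨by omega, h2⟩⟩
    obtain ⟨b, hb, hmax⟩ := Finset.exists_max_image _ id hne
    rw [Finset.mem_filter, Finset.mem_range] at hb
    refine ⟨b, ⟨by omega, hb.2⟩, ?_⟩
    intro b' hb'
    exact hmax b' (by rw [Finset.mem_filter, Finset.mem_range]; exact ⟨by omega, hb'.2⟩)
  obtain ⟨b, ⟨hb1, hb2, hb3⟩, hbmax⟩ := hfb
  by_cases hbn : b = n
  · subst hbn
    refine ⟨b, 0, hb2, by omega, by omega, hb3, ?_⟩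
    have h1 := mm_succ_c (b := b) (c := 0) (n := b) (by omega)
    rw [mm_self_zero, add_zero] at h1
    have h2 : mm b (0 + 1) b ≤ mm b (0 + 1) b + (b - (0 + 1)) / b := Nat.le_add_right _ _
    rw [h1] at h2
    exact h2.trans (Nat.zero_le _)
  · have hb4 : mm (b + 1) 0 n < m := by
      by_contra hcon
      push Not at hcon
      have := hbmax (b + 1) ⟨by omega, by omega, hcon⟩
      omega
    have hfc : ∃ c, ((b + 1) * c ≤ n ∧ m ≤ mm b c n) ∧
        ∀ c', ((b + 1) * c' ≤ n ∧ m ≤ mm b c' n) → c' ≤ c := by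
      have hne : ((range (n + 1)).filter (fun c => (b + 1) * c ≤ n ∧ m ≤ mm b c n)).Nonempty :=
        ⟨0, by rw [Finset.mem_filter, Finset.mem_range]; exact ⟨by omega, by omega, hb3⟩⟩
      obtain ⟨c, hc, hmax⟩ := Finset.exists_max_image _ id hne
      rw [Finset.mem_filter, Finset.mem_range] at hc
      refine ⟨c, hc.2, ?_⟩
      intro c' hc'
      refine hmax c' ?_
      rw [Finset.mem_filter, Finset.mem_range]
      refine ⟨?_, hc'⟩
      have : 1 * c' ≤ (b + 1) * c' := Nat.mul_le_mul_right _ (by omega)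
      omega
    obtain ⟨c, ⟨hc1, hc2⟩, hcmax⟩ := hfc
    have hc3 : (b + 1) * (c + 1) ≤ n := by
      by_contra hcon
      push Not at hcon
      have := (vertex_eq hb2 hc1 hcon).1
      omega
    have hc4 : c + 1 ≤ n := by
      have : 1 * (c + 1) ≤ (b + 1) * (c + 1) := Nat.mul_le_mul_right _ (by omega)
      omega
    refine ⟨b, c, hb2, by omega, hc4, hc2, ?_⟩
    by_contra hcon
    push Not at hcon
    have := hcmax (c + 1) ⟨hc3, by omega⟩
    omega

end Pool.Agent.MP_f1b527_co
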